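import Pool.Agent.TSR.Sgn
import Pool.Agent.TDN.Point
import Pool.Agent.TLT.BAS

set_option autoImplicit false

/-!
# Choices of signs with bounds for the value and for the Dirichlet seminorm (MP_d27362_co)

`e_signs`: signs of a finite family of polynomials with values of modulus at most `c` at `T`:
the signed sum has its value between `0` and `2 c` and
`dn (signed sum)² ≤ (4/3) Σ dn²` (consecutive quadruples of the sorted family, the best balanced
pattern in each quadruple).
`e_signs_pairs`: value between `0` and `c`, factor `2`.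
`sigma_even`, `sigma_odd`, `sigma_triv`: balanced signs.
-/

namespace Pool.Agent.TSR

open Finset Polynomial
open Pool.Agent.TDN
open Pool.Agent.TLT (sg)

variable {T : ℝ}

lemma sg_tt : sg true = 1 := by simp [sg]

lemma sg_ff : sg false = -1 := by simp [sg]

lemma sg_beq (a b : Bool) : sg (a == b) = sg a * sg b := by
  cases a <;> cases b <;> simp [sg_tt, sg_ff]

lemma sg_sq (a : Bool) : sg a * sg a = 1 := by
  cases a <;> simp [sg_tt, sg_ff]

lemma sg_abs (a : Bool) : |sg a| = 1 := by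
  cases a <;> simp [sg_tt, sg_ff]

lemma df_smul_left (c : ℝ) (p q : ℝ[X]) : dform T (c • p) q = c * dform T p q := by
  rw [smul_eq_C_mul, dform_smul_left]

lemma df_smul_right (c : ℝ) (p q : ℝ[X]) : dform T p (c • q) = c * dform T p q := by
  rw [smul_eq_C_mul, dform_smul_right]

lemma dn_sg (hT : 0 ≤ T) (s : Bool) (p : ℝ[X]) : dn T (sg s • p) ^ 2 = dn T p ^ 2 := by
  rw [dn_sq T hT, dn_sq T hT, df_smul_left, df_smul_right, ← mul_assoc, sg_sq, one_mul]

/-- the Hilbert flip -/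
lemma flip2 (hT : 0 ≤ T) (P Q : ℝ[X]) :
    ∃ s : Bool, dn T (sg s • P + Q) ^ 2 ≤ dn T P ^ 2 + dn T Q ^ 2 := by
  have e1 : ∀ s : Bool, dn T (sg s • P + Q) ^ 2 =
      dn T P ^ 2 + dn T Q ^ 2 + 2 * (sg s * dform T P Q) := by
    intro s
    rw [dn_add_sq T hT, dn_sg hT, df_smul_left]
    ring
  rcases le_total (dform T P Q) 0 with h | h
  · exact ⟨true, by rw [e1, sg_tt]; linarith⟩
  · exact ⟨false, by rw [e1, sg_ff]; linarith⟩

lemma dn_sq3 (hT : 0 ≤ T) (x y z : ℝ) (p q r : ℝ[X]) :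
    dn T (x • p + (y • q + z • r)) ^ 2 =
      x ^ 2 * dn T p ^ 2 + y ^ 2 * dn T q ^ 2 + z ^ 2 * dn T r ^ 2 +
      2 * (x * y * dform T p q + x * z * dform T p r + y * z * dform T q r) := by
  simp only [dn_sq T hT, dform_add_left, dform_add_right, df_smul_left, df_smul_right]
  rw [dform_comm T q p, dform_comm T r p, dform_comm T r q]
  ring

lemma dn_sq4 (hT : 0 ≤ T) (x y z w : ℝ) (p q r u : ℝ[X]) :
    dn T (x • p + (y • q + (z • r + w • u))) ^ 2 =
      x ^ 2 * dn T p ^ 2 + y ^ 2 * dn T q ^ 2 + z ^ 2 * dn T r ^ 2 + w ^ 2 * dn T u ^ 2 +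
      2 * (x * y * dform T p q + x * z * dform T p r + y * z * dform T q r +
        x * w * dform T p u + y * w * dform T q u + z * w * dform T r u) := by
  simp only [dn_sq T hT, dform_add_left, dform_add_right, df_smul_left, df_smul_right]
  rw [dform_comm T q p, dform_comm T r p, dform_comm T r q, dform_comm T u p,
    dform_comm T u q, dform_comm T u r]
  ring

/-- three polynomials: a pattern with two equal signs -/
lemma trip (hT : 0 ≤ T) (p q r : ℝ[X]) (hpq : q.eval T ≤ p.eval T) (hqr : r.eval T ≤ q.eval T)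
    (hr : 0 ≤ r.eval T) :
    ∃ a b c : Bool, |(sg a • p + (sg b • q + sg c • r)).eval T| ≤ p.eval T + q.eval T ∧
      dn T (sg a • p + (sg b • q + sg c • r)) ^ 2 ≤
        4 / 3 * (dn T p ^ 2 + dn T q ^ 2 + dn T r ^ 2) := by
  have h0 : 0 ≤ dn T ((1 : ℝ) • p + ((1 : ℝ) • q + (1 : ℝ) • r)) ^ 2 := sq_nonneg _
  rw [dn_sq3 hT] at h0
  have key : ∃ a b c : Bool, (a, b, c) ∈
      ({(true, true, false), (true, false, true), (false, true, true)} :
        Set (Bool × Bool × Bool)) ∧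
      dn T (sg a • p + (sg b • q + sg c • r)) ^ 2 ≤
        4 / 3 * (dn T p ^ 2 + dn T q ^ 2 + dn T r ^ 2) := by
    by_contra hcon
    push Not at hcon
    have h1 := hcon true true false (by simp)
    have h2 := hcon true false true (by simp)
    have h3 := hcon false true true (by simp)
    rw [dn_sq3 hT, sg_tt, sg_ff] at h1 h2 h3
    nlinarith
  obtain ⟨a, b, c, hm, h⟩ := key
  refine ⟨a, b, c, ?_, h⟩
  simp only [Set.mem_insert_iff, Set.mem_singleton_iff, Prod.mk.injEq] at hm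
  rcases hm with ⟨rfl, rfl, rfl⟩ | ⟨rfl, rfl, rfl⟩ | ⟨rfl, rfl, rfl⟩ <;>
  · rw [abs_le]
    simp only [sg_tt, sg_ff, eval_add, eval_smul, smul_eq_mul]
    constructor <;> linarith

/-- four polynomials: a balanced pattern -/
lemma quad (hT : 0 ≤ T) (p q r u : ℝ[X]) (hpq : q.eval T ≤ p.eval T)
    (hqr : r.eval T ≤ q.eval T) (hru : u.eval T ≤ r.eval T) :
    ∃ a b c d : Bool,
      |(sg a • p + (sg b • q + (sg c • r + sg d • u))).eval T| ≤
        p.eval T + q.eval T - r.eval T - u.eval T ∧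
      dn T (sg a • p + (sg b • q + (sg c • r + sg d • u))) ^ 2 ≤
        4 / 3 * (dn T p ^ 2 + dn T q ^ 2 + dn T r ^ 2 + dn T u ^ 2) := by
  have h0 : 0 ≤ dn T ((1 : ℝ) • p + ((1 : ℝ) • q + ((1 : ℝ) • r + (1 : ℝ) • u))) ^ 2 :=
    sq_nonneg _
  rw [dn_sq4 hT] at h0
  have key : ∃ a b c d : Bool, (a, b, c, d) ∈
      ({(true, true, false, false), (true, false, true, false), (true, false, false, true)} :
        Set (Bool × Bool × Bool × Bool)) ∧
      dn T (sg a • p + (sg b • q + (sg c • r + sg d • u))) ^ 2 ≤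
        4 / 3 * (dn T p ^ 2 + dn T q ^ 2 + dn T r ^ 2 + dn T u ^ 2) := by
    by_contra hcon
    push Not at hcon
    have h1 := hcon true true false false (by simp)
    have h2 := hcon true false true false (by simp)
    have h3 := hcon true false false true (by simp)
    rw [dn_sq4 hT, sg_tt, sg_ff] at h1 h2 h3
    nlinarith
  obtain ⟨a, b, c, d, hm, h⟩ := key
  refine ⟨a, b, c, d, ?_, h⟩
  simp only [Set.mem_insert_iff, Set.mem_singleton_iff, Prod.mk.injEq] at hm
  rcases hm with ⟨rfl, rfl, rfl, rfl⟩ | ⟨rfl, rfl, rfl, rfl⟩ | ⟨rfl, rfl, rfl, rfl⟩ <;>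
  · rw [abs_le]
    simp only [sg_tt, sg_ff, eval_add, eval_smul, smul_eq_mul]
    constructor <;> linarith

/-! ### Sequences -/

/-- the signed sum of the first `n` members -/
noncomputable def ss (s : ℕ → Bool) (p : ℕ → ℝ[X]) (n : ℕ) : ℝ[X] :=
  ∑ i ∈ range n, sg (s i) • p i

/-- two signs in front -/
def cons2 (a b : Bool) (s : ℕ → Bool) : ℕ → Bool
  | 0 => a
  | 1 => b
  | (i + 2) => s i

lemma ss_cons2 (a b : Bool) (s : ℕ → Bool) (p : ℕ → ℝ[X]) (n : ℕ) :
    ss (cons2 a b s) p (n + 2) = sg a • p 0 + (sg b • p 1 + ss s (fun i => p (i + 2)) n) := by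
  unfold ss
  rw [sum_range_succ', sum_range_succ']
  have : ∑ i ∈ range n, sg (cons2 a b s (i + 1 + 1)) • p (i + 1 + 1) =
      ∑ i ∈ range n, sg (s i) • p (i + 2) := rfl
  rw [this]
  show _ + sg b • p 1 + sg a • p 0 = _
  abel

lemma ss_cons4 (a b c d : Bool) (s : ℕ → Bool) (p : ℕ → ℝ[X]) (n : ℕ) :
    ss (cons2 a b (cons2 c d s)) p (n + 4) =
      (sg a • p 0 + (sg b • p 1 + (sg c • p 2 + sg d • p 3))) +
        ss s (fun i => p (i + 4)) n := by
  have h1 := ss_cons2 a b (cons2 c d s) p (n + 2)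
  have h2 := ss_cons2 c d s (fun i => p (i + 2)) n
  rw [show n + 4 = n + 2 + 2 from rfl, h1, h2]
  show sg a • p 0 + (sg b • p 1 + (sg c • p 2 + (sg d • p 3 +
    ss s (fun i => p (i + 4)) n))) = _
  abel

lemma sum2 (f : ℕ → ℝ) (n : ℕ) :
    ∑ i ∈ range (n + 2), f i = f 0 + f 1 + ∑ i ∈ range n, f (i + 2) := by
  rw [sum_range_succ', sum_range_succ']
  ring

lemma sum4 (f : ℕ → ℝ) (n : ℕ) :
    ∑ i ∈ range (n + 4), f i = f 0 + f 1 + f 2 + f 3 + ∑ i ∈ range n, f (i + 4) := by
  rw [show n + 4 = n + 2 + 2 from rfl, sum2, sum2]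
  ring

lemma smul_quad (s a b c d : Bool) (p q r u : ℝ[X]) :
    sg (a == s) • p + (sg (b == s) • q + (sg (c == s) • r + sg (d == s) • u)) =
      sg s • (sg a • p + (sg b • q + (sg c • r + sg d • u))) := by
  simp only [sg_beq, smul_add, smul_smul, mul_comm (sg s)]

lemma smul_pair (s a b : Bool) (p q : ℝ[X]) :
    sg (a == s) • p + sg (b == s) • q = sg s • (sg a • p + sg b • q) := by
  simp only [sg_beq, smul_add, smul_smul, mul_comm (sg s)]

/-- the quadruple lemma for a decreasing sequence of values -/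
theorem quads_seq (hT : 0 ≤ T) : ∀ n : ℕ, ∀ p : ℕ → ℝ[X],
    (Antitone fun i => (p i).eval T) → (∀ i, 0 ≤ (p i).eval T) →
    ∃ s : ℕ → Bool, |(ss s p n).eval T| ≤ (p 0).eval T + (p 1).eval T ∧
      dn T (ss s p n) ^ 2 ≤ 4 / 3 * ∑ i ∈ range n, dn T (p i) ^ 2 ∧
      (n ≤ 2 → dn T (ss s p n) ^ 2 ≤ ∑ i ∈ range n, dn T (p i) ^ 2)
  | 0, p, _, h0 => ⟨fun _ => true, by
      have e1 : ss (fun _ => true) p 0 = 0 := by simp [ss]
      rw [e1, dn_zero]
      simp only [eval_zero, abs_zero, range_zero, sum_empty]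
      refine ⟨by linarith [h0 0, h0 1], by norm_num, fun _ => by norm_num⟩⟩
  | 1, p, _, h0 => ⟨fun _ => true, by
      have e1 : ss (fun _ => true) p 1 = p 0 := by simp [ss, sg_tt]
      rw [e1]
      simp only [range_one, sum_singleton]
      rw [abs_of_nonneg (h0 0)]
      refine ⟨by linarith [h0 1], by nlinarith [sq_nonneg (dn T (p 0))], fun _ => le_rfl⟩⟩
  | 2, p, _, h0 => by
      obtain ⟨s, hs⟩ := flip2 hT (p 0) (p 1)
      refine ⟨cons2 s true fun _ => true, ?_⟩
      have e1 : ss (cons2 s true fun _ => true) p 2 = sg s • p 0 + p 1 := by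
        rw [show 2 = 0 + 2 from rfl, ss_cons2]
        simp [ss, sg_tt]
      rw [e1, show range 2 = range (0 + 2) from rfl, sum2]
      simp only [range_zero, sum_empty, add_zero]
      refine ⟨?_, hs.trans (by nlinarith [sq_nonneg (dn T (p 0)), sq_nonneg (dn T (p 1))]),
        fun _ => hs⟩
      rw [eval_add, eval_smul, smul_eq_mul]
      refine (abs_add_le _ _).trans ?_
      rw [abs_mul, sg_abs, one_mul, abs_of_nonneg (h0 0), abs_of_nonneg (h0 1)]
  | 3, p, ha, h0 => by
      obtain ⟨a, b, c, h1, h2⟩ := trip hT (p 0) (p 1) (p 2) (ha (by norm_num))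
        (ha (by norm_num)) (h0 2)
      refine ⟨cons2 a b fun _ => c, ?_⟩
      have e1 : ss (cons2 a b fun _ => c) p 3 = sg a • p 0 + (sg b • p 1 + sg c • p 2) := by
        rw [show 3 = 1 + 2 from rfl, ss_cons2]
        simp [ss]
      rw [e1, show range 3 = range (1 + 2) from rfl, sum2]
      simp only [range_one, sum_singleton]
      exact ⟨h1, h2, fun h => absurd h (by norm_num)⟩
  | (n + 4), p, ha, h0 => by
      obtain ⟨s', h1, h2, _⟩ := quads_seq hT n (fun i => p (i + 4))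
        (fun i j hij => ha (by omega)) (fun i => h0 _)
      obtain ⟨a, b, c, d, h3, h4⟩ := quad hT (p 0) (p 1) (p 2) (p 3) (ha (by norm_num))
        (ha (by norm_num)) (ha (by norm_num))
      obtain ⟨s, hs⟩ := flip2 hT (sg a • p 0 + (sg b • p 1 + (sg c • p 2 + sg d • p 3)))
        (ss s' (fun i => p (i + 4)) n)
      refine ⟨cons2 (a == s) (b == s) (cons2 (c == s) (d == s) s'), ?_⟩
      rw [ss_cons4, smul_quad, sum4]
      refine ⟨?_, by linarith, fun h => absurd h (by omega)⟩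
      rw [eval_add, eval_smul, smul_eq_mul]
      refine (abs_add_le _ _).trans ?_
      rw [abs_mul, sg_abs, one_mul]
      have h5 : (p 4).eval T ≤ (p 2).eval T := ha (by norm_num)
      have h6 : (p 5).eval T ≤ (p 3).eval T := ha (by norm_num)
      simp only [zero_add] at h1
      have h7 : (p (1 + 4)).eval T = (p 5).eval T := rfl
      rw [h7] at h1
      linarith

/-- the pair lemma for a decreasing sequence of values, even number of members -/
theorem pairs_seq (hT : 0 ≤ T) : ∀ n : ℕ, ∀ p : ℕ → ℝ[X],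
    (Antitone fun i => (p i).eval T) →
    ∃ s : ℕ → Bool, ∑ i ∈ range (2 * (n + 1)), sg (s i) = 0 ∧
      |(ss s p (2 * (n + 1))).eval T| ≤ (p 0).eval T - (p (2 * n + 1)).eval T ∧
      dn T (ss s p (2 * (n + 1))) ^ 2 ≤ 2 * ∑ i ∈ range (2 * (n + 1)), dn T (p i) ^ 2
  | 0, p, ha => by
      refine ⟨cons2 true false fun _ => true, ?_, ?_, ?_⟩
      · rw [show 2 * (0 + 1) = 0 + 2 from rfl, sum2]
        simp only [range_zero, sum_empty, add_zero]
        show sg true + sg false = 0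
        rw [sg_tt, sg_ff]; norm_num
      · have e1 : ss (cons2 true false fun _ => true) p (2 * (0 + 1)) = p 0 - p 1 := by
          rw [show 2 * (0 + 1) = 0 + 2 from rfl, ss_cons2]
          simp [ss, sg_tt, sg_ff, sub_eq_add_neg]
        rw [e1, eval_sub]
        have : (p 1).eval T ≤ (p 0).eval T := ha (by norm_num)
        rw [abs_of_nonneg (by linarith)]
      · have e1 : ss (cons2 true false fun _ => true) p (2 * (0 + 1)) = p 0 - p 1 := by
          rw [show 2 * (0 + 1) = 0 + 2 from rfl, ss_cons2]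
          simp [ss, sg_tt, sg_ff, sub_eq_add_neg]
        rw [e1, show 2 * (0 + 1) = 0 + 2 from rfl, sum2]
        simp only [range_zero, sum_empty, add_zero]
        have := dn_parallelogram T hT (p 0) (p 1)
        nlinarith [sq_nonneg (dn T (p 0 + p 1))]
  | (n + 1), p, ha => by
      obtain ⟨s', h0, h1, h2⟩ := pairs_seq hT n (fun i => p (i + 2))
        (fun i j hij => ha (by omega))
      obtain ⟨s, hs⟩ := flip2 hT (p 0 - p 1) (ss s' (fun i => p (i + 2)) (2 * (n + 1)))
      refine ⟨cons2 s (!s) s', ?_, ?_, ?_⟩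
      · rw [show 2 * (n + 1 + 1) = 2 * (n + 1) + 2 from rfl, sum2]
        show sg s + sg (!s) + ∑ i ∈ range (2 * (n + 1)), sg (s' i) = 0
        rw [h0]
        cases s <;> simp [sg_tt, sg_ff]
      all_goals
        have e1 : ss (cons2 s (!s) s') p (2 * (n + 1 + 1)) =
            sg s • (p 0 - p 1) + ss s' (fun i => p (i + 2)) (2 * (n + 1)) := by
          rw [show 2 * (n + 1 + 1) = 2 * (n + 1) + 2 from rfl, ss_cons2, smul_sub]
          have : sg (!s) = - sg s := by cases s <;> simp [sg_tt, sg_ff]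
          rw [this, neg_smul]
          abel
        rw [e1]
      · rw [eval_add, eval_smul, smul_eq_mul, eval_sub]
        refine (abs_add_le _ _).trans ?_
        rw [abs_mul, sg_abs, one_mul]
        have h5 : (p 1).eval T ≤ (p 0).eval T := ha (by norm_num)
        have h6 : (p 2).eval T ≤ (p 1).eval T := ha (by norm_num)
        rw [abs_of_nonneg (by linarith : 0 ≤ (p 0).eval T - (p 1).eval T)]
        simp only [zero_add] at h1
        have h7 : (p (2 * n + 1 + 2)).eval T = (p (2 * (n + 1) + 1)).eval T := rfl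
        rw [h7] at h1
        linarith
      · rw [show 2 * (n + 1 + 1) = 2 * (n + 1) + 2 from rfl, sum2]
        have := dn_parallelogram T hT (p 0) (p 1)
        nlinarith [sq_nonneg (dn T (p 0 + p 1))]

/-! ### Finite families -/

/-- the extension of a finite family by zero -/
noncomputable def extp {n : ℕ} (a : Fin n → ℝ[X]) (i : ℕ) : ℝ[X] :=
  if h : i < n then a ⟨i, h⟩ else 0

lemma extp_fin {n : ℕ} (a : Fin n → ℝ[X]) (i : Fin n) : extp a i = a i := by
  unfold extp; rw [dif_pos i.2]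

lemma extp_lt {n : ℕ} (a : Fin n → ℝ[X]) {i : ℕ} (h : i < n) : extp a i = a ⟨i, h⟩ := by
  unfold extp; rw [dif_pos h]

lemma extp_eval {n : ℕ} (a : Fin n → ℝ[X]) (i : ℕ) :
    (extp a i).eval T = ext0 (fun j => (a j).eval T) i := by
  unfold extp ext0
  split_ifs
  · rfl
  · exact eval_zero

lemma sum_sorted {ι : Type*} [Fintype ι] (r : Fin (Fintype.card ι) ≃ ι) (f : ι → ℝ)
    (g : ℕ → ℝ) (h : ∀ i : Fin (Fintype.card ι), g i = f (r i)) :
    ∑ i ∈ range (Fintype.card ι), g i = ∑ i, f i := by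
  rw [← Fin.sum_univ_eq_sum_range g, ← Equiv.sum_comp r]
  exact sum_congr rfl fun i _ => h i

lemma ss_sorted {ι : Type*} [Fintype ι] (r : Fin (Fintype.card ι) ≃ ι) (p : ι → ℝ[X])
    (s : ℕ → Bool) :
    ss s (extp fun i => p (r i)) (Fintype.card ι) = ∑ i, sg (s (r.symm i)) • p i := by
  unfold ss
  rw [← Fin.sum_univ_eq_sum_range (fun i => sg (s i) • extp (fun i => p (r i)) i),
    ← Equiv.sum_comp r]
  refine sum_congr rfl fun i _ => ?_
  rw [extp_fin, Equiv.symm_apply_apply]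

lemma sg_not' (b : Bool) : sg (!b) = - sg b := by cases b <;> simp [sg_tt, sg_ff]

lemma sum_flip {ι : Type*} [Fintype ι] (e : ι → Bool) (p : ι → ℝ[X]) :
    ∑ i, sg (!(e i)) • p i = - ∑ i, sg (e i) • p i := by
  rw [← sum_neg_distrib]
  exact sum_congr rfl fun i _ => by rw [sg_not', neg_smul]

/-- global flip: if the modulus of the value is bounded then the value can be made
nonnegative -/
lemma global_flip {ι : Type*} [Fintype ι] (e : ι → Bool) (p : ι → ℝ[X]) (c : ℝ)
    (h : |(∑ i, sg (e i) • p i).eval T| ≤ c) :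
    ∃ e' : ι → Bool, (e' = e ∨ e' = fun i => !(e i)) ∧
      0 ≤ (∑ i, sg (e' i) • p i).eval T ∧ (∑ i, sg (e' i) • p i).eval T ≤ c ∧
      dn T (∑ i, sg (e' i) • p i) = dn T (∑ i, sg (e i) • p i) := by
  rcases le_total 0 ((∑ i, sg (e i) • p i).eval T) with h0 | h0
  · exact ⟨e, Or.inl rfl, h0, (le_abs_self _).trans h, rfl⟩
  · refine ⟨fun i => !(e i), Or.inr rfl, ?_⟩
    rw [sum_flip, eval_neg, dn_neg]
    exact ⟨by linarith, (neg_le_abs _).trans h, rfl⟩

/-- the signs which make the values nonnegative -/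
noncomputable def nsg (T : ℝ) (p : ℝ[X]) : Bool := decide (0 ≤ p.eval T)

lemma nsg_eval (p : ℝ[X]) : (sg (nsg T p) • p).eval T = |p.eval T| := by
  unfold nsg
  rw [eval_smul, smul_eq_mul]
  by_cases h : 0 ≤ p.eval T
  · rw [decide_eq_true h, sg_tt, one_mul, abs_of_nonneg h]
  · rw [decide_eq_false h, sg_ff, abs_of_neg (lt_of_not_ge h), neg_one_mul]

/-- **Signs for a finite family of polynomials** with values of modulus at most `c` at `T`:
the value of the signed sum is between `0` and `2 c`, and the square of its Dirichlet seminorm is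
at most `4/3` times the sum of the squares (at most the sum of the squares for at most two
polynomials). -/
theorem e_signs {ι : Type*} [Fintype ι] (hT : 0 ≤ T) (p : ι → ℝ[X]) (c : ℝ) (hc0 : 0 ≤ c)
    (hc : ∀ i, |(p i).eval T| ≤ c) :
    ∃ e : ι → Bool, 0 ≤ (∑ i, sg (e i) • p i).eval T ∧
      (∑ i, sg (e i) • p i).eval T ≤ 2 * c ∧
      dn T (∑ i, sg (e i) • p i) ^ 2 ≤ 4 / 3 * ∑ i, dn T (p i) ^ 2 ∧
      (Fintype.card ι ≤ 2 → dn T (∑ i, sg (e i) • p i) ^ 2 ≤ ∑ i, dn T (p i) ^ 2) := by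
  set q : ι → ℝ[X] := fun i => sg (nsg T (p i)) • p i with hq
  have hqe : ∀ i, (q i).eval T = |(p i).eval T| := fun i => nsg_eval _
  obtain ⟨r, hr⟩ := exists_sorted fun i => (q i).eval T
  have h0 : ∀ i, 0 ≤ (q (r i)).eval T := fun i => by rw [hqe]; exact abs_nonneg _
  have e1 : (fun i => (extp (fun i => q (r i)) i).eval T) =
      ext0 (fun i => (q (r i)).eval T) := by
    funext i; exact extp_eval _ i
  obtain ⟨s, h1, h2, h3⟩ := quads_seq hT (Fintype.card ι) (extp fun i => q (r i))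
    (by rw [e1]; exact ext0_antitone hr h0)
    (fun i => by rw [extp_eval]; exact ext0_nonneg h0 i)
  have hb : ∀ i, (extp (fun i => q (r i)) i).eval T ≤ c := by
    intro i
    rw [extp_eval]
    unfold ext0
    split_ifs
    · show (q (r _)).eval T ≤ c
      rw [hqe]; exact hc _
    · exact hc0
  rw [ss_sorted] at h1 h2 h3
  have e2 : ∑ i, sg (s (r.symm i)) • q i =
      ∑ i, sg (s (r.symm i) == nsg T (p i)) • p i := by
    refine sum_congr rfl fun i _ => ?_
    rw [hq]
    simp only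
    rw [smul_smul, sg_beq]
  have e3 : ∑ i ∈ range (Fintype.card ι), dn T (extp (fun i => q (r i)) i) ^ 2 =
      ∑ i, dn T (p i) ^ 2 := by
    refine sum_sorted r (fun i => dn T (p i) ^ 2) _ fun i => ?_
    rw [extp_fin, hq]
    exact dn_sg hT _ _
  rw [e2] at h1 h2 h3
  rw [e3] at h2 h3
  obtain ⟨e, _, h4, h5, h6⟩ := global_flip (T := T)
    (fun i => s (r.symm i) == nsg T (p i)) p (2 * c) (h1.trans (by linarith [hb 0, hb 1]))
  exact ⟨e, h4, h5, by rw [h6]; exact h2, fun h => by rw [h6]; exact h3 h⟩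

/-- **Balanced signs, even number of polynomials.** -/
theorem sigma_even {ι : Type*} [Fintype ι] (hT : 0 ≤ T) (hev : Even (Fintype.card ι))
    (p : ι → ℝ[X]) (b c : ℝ) (hbc : b ≤ c) (hb : ∀ i, b ≤ (p i).eval T)
    (hc : ∀ i, (p i).eval T ≤ c) :
    ∃ σ : ι → Bool, ∑ i, sg (σ i) = 0 ∧ 0 ≤ (∑ i, sg (σ i) • p i).eval T ∧
      (∑ i, sg (σ i) • p i).eval T ≤ c - b ∧
      dn T (∑ i, sg (σ i) • p i) ^ 2 ≤ 2 * ∑ i, dn T (p i) ^ 2 := by
  rcases Nat.eq_zero_or_pos (Fintype.card ι) with hz | hpos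
  · have : IsEmpty ι := Fintype.card_eq_zero_iff.mp hz
    refine ⟨fun _ => true, by simp, by simp, by simpa using hbc, ?_⟩
    simp [dn_zero]
  · obtain ⟨n, hn⟩ : ∃ n, Fintype.card ι = 2 * (n + 1) := by
      obtain ⟨k, hk⟩ := hev
      exact ⟨k - 1, by omega⟩
    obtain ⟨r, hr⟩ := exists_sorted fun i => (p i).eval T
    -- the sequence extended by its last member
    set a : ℕ → ℝ[X] := fun i => p (r ⟨min i (Fintype.card ι - 1), by omega⟩) with ha
    have hanti : Antitone fun i => (a i).eval T := by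
      intro i j hij
      exact hr (by
        show min i (Fintype.card ι - 1) ≤ min j (Fintype.card ι - 1)
        omega)
    have ha1 : ∀ i : Fin (Fintype.card ι), a i = p (r i) := by
      intro i
      rw [ha]
      simp only
      congr 2
      apply Fin.ext
      show min (i : ℕ) (Fintype.card ι - 1) = i
      have := i.2
      omega
    obtain ⟨s, h0, h1, h2⟩ := pairs_seq hT n a hanti
    rw [← hn] at h0 h1 h2
    have e1 : ss s a (Fintype.card ι) = ∑ i, sg (s (r.symm i)) • p i := by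
      unfold ss
      rw [← Fin.sum_univ_eq_sum_range (fun i => sg (s i) • a i), ← Equiv.sum_comp r]
      refine sum_congr rfl fun i _ => ?_
      rw [ha1, Equiv.symm_apply_apply]
    have e2 : ∑ i ∈ range (Fintype.card ι), dn T (a i) ^ 2 = ∑ i, dn T (p i) ^ 2 :=
      sum_sorted r (fun i => dn T (p i) ^ 2) _ fun i => by rw [ha1]
    have e3 : ∑ i ∈ range (Fintype.card ι), sg (s i) = ∑ i, sg (s (r.symm i)) :=
      sum_sorted r (fun i => sg (s (r.symm i))) _ fun i => by rw [Equiv.symm_apply_apply]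
    rw [e1] at h1 h2
    rw [e2] at h2
    rw [e3] at h0
    have h3 : |(∑ i, sg (s (r.symm i)) • p i).eval T| ≤ c - b := by
      refine h1.trans ?_
      have := hc (r ⟨min 0 (Fintype.card ι - 1), by omega⟩)
      have := hb (r ⟨min (2 * n + 1) (Fintype.card ι - 1), by omega⟩)
      show (p _).eval T - (p _).eval T ≤ _
      linarith
    obtain ⟨e, h4, h5, h6, h7⟩ := global_flip (T := T) (fun i => s (r.symm i)) p (c - b) h3
    refine ⟨e, ?_, h5, h6, by rw [h7]; exact h2⟩
    rcases h4 with rfl | rfl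
    · exact h0
    · simp only [sg_not', sum_neg_distrib, h0, neg_zero]

/-- a sum over a type without one element -/
lemma sum_ne {ι : Type*} [Fintype ι] [DecidableEq ι] {M : Type*} [AddCommMonoid M] (j : ι)
    (f : ι → M) : ∑ i, f i = (∑ i : {i // i ≠ j}, f i) + f j := by
  rw [← Finset.sum_erase_add _ _ (mem_univ j)]
  congr 1
  rw [Finset.sum_subtype (univ.erase j) (p := fun i => i ≠ j)]
  intro i
  simp

/-- **Balanced signs, odd number of polynomials**: `j` is a polynomial with the smallest value;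
it gets the sign `+`. -/
theorem sigma_odd {ι : Type*} [Fintype ι] [DecidableEq ι] (hT : 0 ≤ T)
    (hodd : Odd (Fintype.card ι)) (p : ι → ℝ[X]) (c : ℝ) (j : ι)
    (hj : ∀ i, (p j).eval T ≤ (p i).eval T) (hj0 : 0 ≤ (p j).eval T)
    (hc : ∀ i, (p i).eval T ≤ c) :
    ∃ σ : ι → Bool, ∑ i, sg (σ i) = 1 ∧ 0 ≤ (∑ i, sg (σ i) • p i).eval T ∧
      (∑ i, sg (σ i) • p i).eval T ≤ c ∧
      dn T (∑ i, sg (σ i) • p i) ≤
        Real.sqrt (2 * ∑ i : {i // i ≠ j}, dn T (p i) ^ 2) + dn T (p j) := by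
  have hcard : Even (Fintype.card {i // i ≠ j}) := by
    rw [Fintype.card_subtype_compl, Fintype.card_subtype_eq]
    obtain ⟨k, hk⟩ := hodd
    exact ⟨k, by omega⟩
  obtain ⟨σ, h0, h1, h2, h3⟩ := sigma_even hT hcard (fun i : {i // i ≠ j} => p i)
    ((p j).eval T) c (hc j) (fun i => hj i) (fun i => hc i)
  set σ' : ι → Bool := fun i => if h : i ≠ j then σ ⟨i, h⟩ else true with hσ
  have e0 : ∀ i : {i // i ≠ j}, σ' i = σ i := by
    intro i
    rw [hσ]
    simp only
    rw [dif_pos i.2]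
  have e1 : σ' j = true := by
    rw [hσ]
    simp
  have e2 : ∑ i, sg (σ' i) • p i = (∑ i : {i // i ≠ j}, sg (σ i) • p i) + p j := by
    rw [sum_ne j, e1, sg_tt, one_smul]
    congr 1
    exact sum_congr rfl fun i _ => by rw [e0]
  refine ⟨σ', ?_, ?_, ?_, ?_⟩
  · rw [sum_ne j, e1, sg_tt]
    have : ∑ i : {i // i ≠ j}, sg (σ' i) = ∑ i : {i // i ≠ j}, sg (σ i) :=
      sum_congr rfl fun i _ => by rw [e0]
    rw [this, h0, zero_add]
  · rw [e2, eval_add]; linarith
  · rw [e2, eval_add]; linarith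
  · rw [e2]
    refine (dn_add_le T hT _ _).trans ?_
    gcongr
    exact Real.le_sqrt_of_sq_le h3

/-- the odd case, squared form: in general the factor is `3`, and it is `2` if one of the
polynomials is zero -/
theorem sigma_odd_sq {ι : Type*} [Fintype ι] [DecidableEq ι] (hT : 0 ≤ T)
    (hodd : Odd (Fintype.card ι)) (p : ι → ℝ[X]) (c : ℝ)
    (h0 : ∀ i, 0 ≤ (p i).eval T) (hc : ∀ i, (p i).eval T ≤ c) :
    ∃ σ : ι → Bool, ∑ i, sg (σ i) = 1 ∧ 0 ≤ (∑ i, sg (σ i) • p i).eval T ∧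
      (∑ i, sg (σ i) • p i).eval T ≤ c ∧
      dn T (∑ i, sg (σ i) • p i) ^ 2 ≤ 3 * ∑ i, dn T (p i) ^ 2 ∧
      ((∃ i, p i = 0) → dn T (∑ i, sg (σ i) • p i) ^ 2 ≤ 2 * ∑ i, dn T (p i) ^ 2) := by
  have hne : Nonempty ι := Fintype.card_pos_iff.mp hodd.pos
  obtain ⟨j, hj, hj2⟩ : ∃ j, (∀ i, (p j).eval T ≤ (p i).eval T) ∧
      ((∃ i, p i = 0) → p j = 0) := by
    by_cases h : ∃ i, p i = 0
    · obtain ⟨j, hj⟩ := h
      exact ⟨j, fun i => by rw [hj, eval_zero]; exact h0 i, fun _ => hj⟩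
    · obtain ⟨j, hj⟩ := Finite.exists_min fun i => (p i).eval T
      exact ⟨j, hj, fun h' => absurd h' h⟩
  obtain ⟨σ, h1, h2, h3, h4⟩ := sigma_odd hT hodd p c j hj (h0 j) hc
  have hS := sum_ne j fun i => dn T (p i) ^ 2
  set A := ∑ i : {i // i ≠ j}, dn T (p i) ^ 2 with hA
  have hA0 : 0 ≤ A := sum_nonneg fun i _ => sq_nonneg _
  have h5 := dn_nonneg T (p j)
  have h6 := dn_nonneg T (∑ i, sg (σ i) • p i)
  have h7 : Real.sqrt (2 * A) ^ 2 = 2 * A := Real.sq_sqrt (by linarith)
  have h8 := Real.sqrt_nonneg (2 * A)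
  refine ⟨σ, h1, h2, h3, ?_, ?_⟩
  · rw [hS]
    nlinarith [sq_nonneg (Real.sqrt (2 * A) - 2 * dn T (p j))]
  · intro h
    rw [hS]
    have h9 : dn T (p j) = 0 := by rw [hj2 h, dn_zero]
    rw [h9] at h4 ⊢
    nlinarith

end Pool.Agent.TSR
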