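import Pool.Agent.TSR.Fin
import Pool.Agent.TSO.Lin

set_option autoImplicit false

/-!
# The induction over reduced rooted trees (MP_d27362_co)

`node lf tw s0 s1 e1 c σ e` is the oriented rooted tree with the branches: a leaf (if `lf`), a
two-vertex path (if `tw`), and the oriented trees `c i`, reversed if `e i = false`; the edges above
them have the directions `s0`, `s1`, `σ i`.
`closure`: the frozen statement follows from an invariant `P` of functions on kernels which can be
propagated from the branches to the tree for a suitable choice of the directions.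
-/

namespace Pool.Agent.TSR

open Finset
open Pool.Agent.TLT (sg)
open Pool.Agent.TSP (ip op beta)
open Pool.Agent.TSO (mn msg)

noncomputable section

/-- a list whose image is a given permutation of the image of `l` -/
lemma exists_perm_map {α β : Type} (f : α → β) {m k : List β} (h : m.Perm k) :
    ∀ l : List α, l.map f = m → ∃ l' : List α, l'.Perm l ∧ l'.map f = k := by
  induction h with
  | nil => intro l hl; exact ⟨l, List.Perm.refl _, hl⟩
  | cons x _ ih =>
    intro l hl
    cases l with
    | nil => simp at hl
    | cons a l =>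
      rw [List.map_cons, List.cons.injEq] at hl
      obtain ⟨l', h1, h2⟩ := ih l hl.2
      exact ⟨a :: l', h1.cons a, by rw [List.map_cons, h2, hl.1]⟩
  | swap x y k =>
    intro l hl
    cases l with
    | nil => simp at hl
    | cons a l =>
      cases l with
      | nil => simp at hl
      | cons b l =>
        rw [List.map_cons, List.map_cons, List.cons.injEq, List.cons.injEq] at hl
        exact ⟨b :: a :: l, List.Perm.swap a b l, by
          rw [List.map_cons, List.map_cons, hl.1, hl.2.1, hl.2.2]⟩
  | trans _ _ ih1 ih2 =>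
    intro l hl
    obtain ⟨l1, h1, h2⟩ := ih1 l hl
    obtain ⟨l2, h3, h4⟩ := ih2 l1 h2
    exact ⟨l2, h3.trans h1, h4⟩

lemma vS_perm {m : ℕ} (S : Fin m → Fin m → ℝ) {l l' : List (Bool × OBr)} (h : l.Perm l') :
    (OBr.mk l).vS S = (OBr.mk l').vS S := by
  funext x
  rw [vS_mk, vS_mk]
  exact (h.map _).prod_eq

lemma filter_perm {α : Type} (p : α → Bool) (l : List α) :
    (l.filter p ++ l.filter fun a => !p a).Perm l := List.filter_append_perm p l

/-- in a list with at most one element equal to `a`, the elements equal to `a` form `[]` or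
`[a]` -/
lemma filter_eq_one {α : Type} [DecidableEq α] (a : α) (l : List α)
    (h : l.Pairwise fun c d => c = a → c ≠ d) :
    l.filter (fun c => decide (c = a)) = if decide (a ∈ l) = true then [a] else [] := by
  induction l with
  | nil => simp
  | cons b l ih =>
    rw [List.pairwise_cons] at h
    have ih' := ih h.2
    by_cases hb : b = a
    · subst hb
      have h1 : b ∉ l := fun hm => h.1 b hm rfl rfl
      rw [List.filter_cons_of_pos (by simp), ih']
      simp [h1]
    · rw [List.filter_cons_of_neg (by simpa using hb), ih']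
      have h2 : a ≠ b := fun h => hb h.symm
      simp [h2]

open Classical in
/-- The induction over reduced rooted trees. -/
theorem closure_induct (P : OBr → Prop)
    (hP : ∀ O O' : OBr, (∀ (m : ℕ) (S : Fin m → Fin m → ℝ), O.vS S = O'.vS S) → P O → P O')
    (step : ∀ (lf tw : Bool) (L : List OBr), (∀ O ∈ L, P O) → (tw = true ∨ L ≠ []) →
      ∃ l : List (Bool × OBr), P (OBr.mk l) ∧ l.map (fun p => p.2.forget) =
        (if lf = true then [leafB] else []) ++ ((if tw = true then [twoB] else []) ++
          L.map OBr.forget))
    (b : Br) (hb : Red Cn2 b) : b = leafB ∨ b = twoB ∨ ∃ O : OBr, O.forget = b ∧ P O := by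
  revert hb
  refine Br.induct (P := fun b => Red Cn2 b → b = leafB ∨ b = twoB ∨
    ∃ O : OBr, O.forget = b ∧ P O) (fun b ih hb => ?_) b
  have hred := Red_kids hb
  have hpw := Red_pairwise hb
  set k := b.kids with hk
  -- the three parts of the list of branches
  have h1 : k.filter (fun c => decide (c = leafB)) =
      if decide (leafB ∈ k) = true then [leafB] else [] :=
    filter_eq_one leafB k (hpw.imp fun h h1 => h (Or.inl h1))
  set k1 := k.filter (fun c => !decide (c = leafB)) with hk1
  have hpw1 : k1.Pairwise fun c d => c = twoB → c ≠ d :=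
    (hpw.filter _).imp fun h h1 => h (Or.inr h1)
  have h2 : k1.filter (fun c => decide (c = twoB)) =
      if decide (twoB ∈ k1) = true then [twoB] else [] := filter_eq_one twoB k1 hpw1
  set k2 := k1.filter (fun c => !decide (c = twoB)) with hk2
  have hperm : ((if decide (leafB ∈ k) = true then [leafB] else []) ++
      ((if decide (twoB ∈ k1) = true then [twoB] else []) ++ k2)).Perm k := by
    rw [← h1, ← h2]
    exact ((filter_perm _ k1).append_left _).trans (filter_perm _ k)
  -- orientations of the other branches
  have h3 : ∀ c ∈ k2, ∃ O : OBr, O.forget = c ∧ P O := by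
    intro c hc
    rw [hk2, List.mem_filter] at hc
    have hc1 := hc.1
    rw [hk1, List.mem_filter] at hc1
    rcases ih c hc1.1 (hred c hc1.1) with h | h | h
    · have := hc1.2
      simp [h] at this
    · have := hc.2
      simp [h] at this
    · exact h
  have h4 : ∃ L : List OBr, L.map OBr.forget = k2 ∧ ∀ O ∈ L, P O := by
    clear_value k2
    clear hperm hk2
    induction k2 with
    | nil => exact ⟨[], rfl, by simp⟩
    | cons c l ih2 =>
      obtain ⟨O, hO1, hO2⟩ := h3 c (by simp)
      obtain ⟨L, hL1, hL2⟩ := ih2 fun d hd => h3 d (List.mem_cons_of_mem _ hd)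
      refine ⟨O :: L, by rw [List.map_cons, hO1, hL1], ?_⟩
      intro Q hQ
      rw [List.mem_cons] at hQ
      rcases hQ with rfl | hQ
      · exact hO2
      · exact hL2 Q hQ
  obtain ⟨L, hL1, hL2⟩ := h4
  by_cases hcase : decide (twoB ∈ k1) = true ∨ L ≠ []
  · obtain ⟨l, hl1, hl2⟩ := step (decide (leafB ∈ k)) (decide (twoB ∈ k1)) L hL2 hcase
    rw [hL1] at hl2
    obtain ⟨l', h5, h6⟩ := exists_perm_map (fun p : Bool × OBr => p.2.forget) hperm l hl2
    right; right
    refine ⟨OBr.mk l', ?_, hP _ _ (fun m S => (vS_perm S h5).symm) hl1⟩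
    rw [OBr.forget_mk, h6, hk, Br.mk_kids]
  · push Not at hcase
    have hL : L = [] := hcase.2
    rw [hL, List.map_nil] at hL1
    rw [← hL1, if_neg hcase.1, List.nil_append, List.append_nil] at hperm
    split_ifs at hperm with h
    · right; left
      have h7 : k = [leafB] := (List.singleton_perm.mp hperm).symm ▸ rfl
      rw [← Br.mk_kids b, ← hk, h7]
      rfl
    · left
      have h7 : k = [] := (List.nil_perm.mp hperm)
      rw [← Br.mk_kids b, ← hk, h7]
      rfl

/-! ### The tree with given branches -/

/-- the function of a branch, reversed if `e = false` -/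
def vv {m : ℕ} (S : Fin m → Fin m → ℝ) (e : Bool) (O : OBr) : Fin m → ℝ :=
  if e = true then O.vS S else O.vS fun i j => - S i j

/-- the oriented rooted tree with a leaf (if `lf`), a two-vertex path (if `tw`) and the branches
`c i`, reversed if `e i = false` -/
def node (lf tw s0 s1 e1 : Bool) {k : ℕ} (c : Fin k → OBr) (σ e : Fin k → Bool) : OBr :=
  OBr.mk ((if lf = true then [(s0, OBr.nil)] else []) ++
    ((if tw = true then [(s1, OBr.cons e1 .nil .nil)] else []) ++
      List.ofFn fun i => (σ i, if e i = true then c i else (c i).rev)))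

lemma vS_flag {m : ℕ} (S : Fin m → Fin m → ℝ) (e : Bool) (O : OBr) :
    (if e = true then O else O.rev).vS S = vv S e O := by
  cases e
  · exact vS_rev S O
  · rfl

lemma mn_beta0 {m : ℕ} {S : Fin m → Fin m → ℝ} (h : Ker S) : mn (beta S) = 0 := by
  have h1 := TSP.ip_op_self S h.anti (fun _ => (1 : ℝ))
  rw [TSP.ip_comm, TSO.ip_one] at h1
  exact h1

lemma vS_path {m : ℕ} {S : Fin m → Fin m → ℝ} (h : Ker S) (e : Bool) :
    (OBr.cons e .nil .nil).vS S = fun y => 1 + sg e * beta S y := by
  funext y
  rw [vS_cons, vS_nil, mul_one]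
  have e1 : (OBr.nil.vS S) = fun _ : Fin m => (1 : ℝ) := rfl
  rw [e1, TSO.ip_one, TSO.mn_const h.pos]
  rfl

lemma vS_node {m : ℕ} {S : Fin m → Fin m → ℝ} (h : Ker S) (lf tw s0 s1 e1 : Bool) {k : ℕ}
    (c : Fin k → OBr) (σ e : Fin k → Bool) (x : Fin m) :
    (node lf tw s0 s1 e1 c σ e).vS S x =
      (if lf = true then 1 + sg s0 * beta S x else 1) *
      ((if tw = true then msg S (sg s1) (fun y => 1 + sg e1 * beta S y) x else 1) *
        ∏ i, msg S (sg (σ i)) (vv S (e i) (c i)) x) := by
  unfold node
  rw [vS_mk, List.map_append, List.map_append, List.prod_append, List.prod_append]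
  congr 1
  · cases lf
    · rfl
    · rw [if_pos rfl, if_pos rfl, List.map_cons, List.map_nil, List.prod_cons, List.prod_nil,
        mul_one]
      show ip (OBr.nil.vS S) (fun _ => 1) + sg s0 * op S (OBr.nil.vS S) x = _
      have e1 : (OBr.nil.vS S) = fun _ : Fin m => (1 : ℝ) := rfl
      rw [e1, TSO.ip_one, TSO.mn_const h.pos]
      rfl
  · congr 1
    · cases tw
      · rfl
      · rw [if_pos rfl, if_pos rfl, List.map_cons, List.map_nil, List.prod_cons, List.prod_nil,
          mul_one]
        show ip ((OBr.cons e1 .nil .nil).vS S) (fun _ => 1) +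
          sg s1 * op S ((OBr.cons e1 .nil .nil).vS S) x = _
        rw [vS_path h, TSO.ip_one]
        rfl
    · rw [List.map_ofFn, List.prod_ofFn]
      refine Finset.prod_congr rfl fun i _ => ?_
      show ip ((if e i = true then c i else (c i).rev).vS S) (fun _ => 1) +
          sg (σ i) * op S ((if e i = true then c i else (c i).rev).vS S) x = _
      rw [vS_flag, TSO.ip_one]
      rfl

/-- The frozen statement follows from an invariant of oriented rooted trees which depends only on
the functions `vS`, holds at every vertex for a suitable choice of the directions of the edges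
below it and of the reversals of the branches, and bounds the mean by one. -/
theorem closure (P : OBr → Prop)
    (hP : ∀ O O' : OBr, (∀ (m : ℕ) (S : Fin m → Fin m → ℝ), O.vS S = O'.vS S) → P O → P O')
    (step : ∀ (lf tw : Bool) (k : ℕ) (c : Fin k → OBr), (∀ i, P (c i)) →
      (tw = true ∨ 0 < k) → ∃ (s0 s1 e1 : Bool) (σ e : Fin k → Bool),
        P (node lf tw s0 s1 e1 c σ e))
    (fin : ∀ O, P O → ∀ (m : ℕ) (S : Fin m → Fin m → ℝ), Ker S → mn (O.vS S) ≤ 1) :
    ∀ n : ℕ, ∀ T : SimpleGraph (Fin n), T.IsTree →
      ∃ D : Fin n → Fin n → Prop,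
        (∀ u v, T.Adj u v → (D u v ∨ D v u)) ∧
        (∀ u v, D u v → (T.Adj u v ∧ ¬ D v u)) ∧
        ∀ m : ℕ, ∀ G : Fin m → Fin m → Prop,
          (∀ a, ¬ G a a) →
          (∀ a b, a ≠ b → (G a b ↔ ¬ G b a)) →
          (({f : Fin n → Fin m | ∀ u v, D u v → G (f u) (f v)}.ncard : ℝ) / (m : ℝ) ^ n
            ≤ ((1 : ℝ) / 2) ^ (T.edgeSet.ncard)) := by
  refine reduceFin fun b hb => ?_
  have key := closure_induct P hP (fun lf tw L hL hne => ?_) b hb
  · rcases key with rfl | rfl | ⟨O, hO, h1⟩
    · refine ⟨.nil, rfl, fun m S hS => ?_⟩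
      have e1 : (OBr.nil.vS S) = fun _ : Fin m => (1 : ℝ) := rfl
      rw [e1, TSO.ip_one, TSO.mn_const hS.pos]
    · refine ⟨.cons true .nil .nil, rfl, fun m S hS => ?_⟩
      rw [vS_path hS, TSO.ip_one, TSO.mn_add, TSO.mn_const hS.pos, TSO.mn_mul, mn_beta0 hS]
      simp
    · exact ⟨O, hO, fun m S hS => by rw [TSO.ip_one]; exact fin O h1 m S hS⟩
  · obtain ⟨s0, s1, e1, σ, e, h⟩ := step lf tw L.length (fun i => L.get i)
      (fun i => hL _ (List.get_mem L i)) (by
        rcases hne with h | h
        · exact Or.inl h
        · exact Or.inr (List.length_pos_iff.mpr h))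
    refine ⟨_, h, ?_⟩
    rw [List.map_append, List.map_append]
    congr 1
    · cases lf <;> rfl
    · congr 1
      · cases tw <;> rfl
      · rw [List.map_ofFn]
        have e2 : ((fun p : Bool × OBr => p.2.forget) ∘ fun i : Fin L.length =>
            (σ i, if e i = true then L.get i else (L.get i).rev)) =
            fun i => (L.get i).forget := by
          funext i
          show (if e i = true then L.get i else (L.get i).rev).forget = _
          split_ifs
          · rfl
          · exact OBr.forget_rev _
        rw [e2]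
        have e3 : (List.ofFn fun i => (L.get i).forget) = (List.ofFn fun i => L.get i).map
            OBr.forget := by
          rw [List.map_ofFn]; rfl
        rw [e3]
        congr 1
        exact List.ofFn_get L

end

end Pool.Agent.TSR
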