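import Pool.Agent.TSR.Tree
import Pool.Agent.TSP.Basic

set_option autoImplicit false

/-!
# The value of an oriented tree for antisymmetric kernels on `Fin m` (MP_d27362_co)
-/

namespace Pool.Agent.TSR

open Finset
open Pool.Agent.TLT (av Krn Sop dl xx sg Kd)
open Pool.Agent.TSP (ip op)

noncomputable section

/-- the normalised number of homomorphisms of the oriented tree with the root at `x`, for the
kernel `1 + S` -/
def OBr.vS {m : ℕ} (S : Fin m → Fin m → ℝ) : OBr → Fin m → ℝ
  | .nil => fun _ => 1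
  | .cons s c t => fun x => (ip (c.vS S) (fun _ => 1) + sg s * op S (c.vS S) x) * t.vS S x

/-- an antisymmetric kernel -/
structure Ker {m : ℕ} (S : Fin m → Fin m → ℝ) : Prop where
  pos : 0 < m
  anti : ∀ i j, S j i = - S i j
  bd : ∀ i j, |S i j| ≤ 1

lemma Ker_neg {m : ℕ} {S : Fin m → Fin m → ℝ} (h : Ker S) : Ker (fun i j => - S i j) :=
  ⟨h.pos, fun i j => by rw [h.anti i j], fun i j => by rw [abs_neg]; exact h.bd i j⟩

section VS

variable {m : ℕ} (S : Fin m → Fin m → ℝ)

@[simp] lemma vS_nil (x : Fin m) : OBr.nil.vS S x = 1 := rfl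

@[simp] lemma vS_cons (s : Bool) (c t : OBr) (x : Fin m) :
    (OBr.cons s c t).vS S x =
      (ip (c.vS S) (fun _ => 1) + sg s * op S (c.vS S) x) * t.vS S x := rfl

lemma vS_mk (l : List (Bool × OBr)) (x : Fin m) :
    (OBr.mk l).vS S x =
      (l.map fun p => ip (p.2.vS S) (fun _ => 1) + sg p.1 * op S (p.2.vS S) x).prod := by
  induction l with
  | nil => rfl
  | cons p l ih => rw [OBr.mk_cons, vS_cons, ih, List.map_cons, List.prod_cons]

lemma op_neg_kernel (f : Fin m → ℝ) (x : Fin m) :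
    op (fun i j => - S i j) f x = - op S f x := by
  unfold TSP.op
  rw [← neg_div, ← Finset.sum_neg_distrib]
  congr 1
  exact Finset.sum_congr rfl fun j _ => by ring

/-- reversal of all directions changes the sign of the kernel -/
lemma vS_rev (O : OBr) : O.rev.vS S = O.vS (fun i j => - S i j) := by
  induction O with
  | nil => rfl
  | cons s c t ih1 ih2 =>
    funext x
    rw [OBr.rev_cons, vS_cons, vS_cons, ih1, ih2, op_neg_kernel, sg_not]
    ring

variable {S}

lemma op_le (h : Ker S) (s : Bool) {f : Fin m → ℝ} (hf : ∀ y, 0 ≤ f y) (x : Fin m) :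
    0 ≤ ip f (fun _ => 1) + sg s * op S f x := by
  unfold TSP.ip TSP.op
  rw [← mul_div_assoc, ← add_div, Finset.mul_sum, ← Finset.sum_add_distrib]
  refine div_nonneg (Finset.sum_nonneg fun y _ => ?_) (Nat.cast_nonneg _)
  have h1 := abs_le.1 (h.bd x y)
  have h2 := hf y
  cases s
  · rw [sg_false]
    nlinarith [mul_nonneg h2 (sub_nonneg.2 h1.2)]
  · rw [sg_true]
    nlinarith [mul_nonneg h2 (neg_le_iff_add_nonneg.1 h1.1)]

lemma vS_nonneg (h : Ker S) (O : OBr) (x : Fin m) : 0 ≤ O.vS S x := by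
  induction O generalizing x with
  | nil => exact zero_le_one
  | cons s c t ih1 ih2 => exact mul_nonneg (op_le h s ih1 x) (ih2 x)

end VS

lemma av_equiv {W U : Type} [Fintype W] [Fintype U] (e : U ≃ W) (f : W → ℝ) :
    av f = av fun u => f (e u) := by
  unfold TLT.av
  rw [Fintype.card_congr e, Equiv.sum_comp e f]

lemma ip_one {m : ℕ} (f : Fin m → ℝ) : ip f (fun _ => 1) = av f := by
  unfold TSP.ip TLT.av
  rw [Fintype.card_fin]
  congr 1
  exact Finset.sum_congr rfl fun i _ => mul_one _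

lemma val_eq_vS {W : Type} [Fintype W] {m : ℕ} (e : Fin m ≃ W) (K : W → W → ℝ) (O : OBr)
    (i : Fin m) : O.val K (e i) = O.vS (fun i j => K (e i) (e j) - 1) i := by
  induction O generalizing i with
  | nil => rfl
  | cons s c t ih1 ih2 =>
    rw [val_cons, vS_cons, ih2]
    congr 1
    unfold ms
    have h1 : av (c.val K) = ip (c.vS fun i j => K (e i) (e j) - 1) (fun _ => 1) := by
      rw [ip_one, av_equiv e]
      congr 1
      funext u
      exact ih1 u
    have h2 : Sop K (c.val K) (e i) =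
        op (fun i j => K (e i) (e j) - 1) (c.vS fun i j => K (e i) (e j) - 1) i := by
      have e1 : Sop K (c.val K) (e i) = av fun y => (K (e i) y - 1) * c.val K y := rfl
      rw [e1, av_equiv e]
      unfold TSP.op TLT.av
      rw [Fintype.card_fin]
      congr 1
      exact Finset.sum_congr rfl fun j _ => by simp only [ih1 j]
    rw [h1, h2]

/-- it is enough to treat kernels on `Fin m` -/
theorem goodBr_of_fin {b : Br} (h : ∃ O : OBr, O.forget = b ∧
    ∀ (m : ℕ) (S : Fin m → Fin m → ℝ), Ker S → ip (O.vS S) (fun _ => 1) ≤ 1) : GoodBr b := by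
  obtain ⟨O, hO, h1⟩ := h
  refine ⟨O, hO, fun W _ _ K hK => ?_⟩
  let e : Fin (Fintype.card W) ≃ W := (Fintype.equivFin W).symm
  have hS : Ker (fun i j => K (e i) (e j) - 1) := by
    refine ⟨Fintype.card_pos, fun i j => ?_, fun i j => ?_⟩
    · have := hK.add (e i) (e j)
      linarith
    · have h2 := hK.add (e i) (e j)
      have h3 := hK.nonneg (e i) (e j)
      have h4 := hK.nonneg (e j) (e i)
      rw [abs_le]
      constructor <;> linarith
  have h2 := h1 _ _ hS
  rw [ip_one] at h2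
  rw [av_equiv e]
  refine le_trans (le_of_eq ?_) h2
  congr 1
  funext i
  exact val_eq_vS e K O i

/-- The frozen statement follows if every reduced rooted tree has an orientation of density at
most one for all antisymmetric kernels on `Fin m`. -/
theorem reduceFin (H : ∀ b, Red Cn2 b → ∃ O : OBr, O.forget = b ∧
    ∀ (m : ℕ) (S : Fin m → Fin m → ℝ), Ker S → ip (O.vS S) (fun _ => 1) ≤ 1) :
    ∀ n : ℕ, ∀ T : SimpleGraph (Fin n), T.IsTree →
      ∃ D : Fin n → Fin n → Prop,
        (∀ u v, T.Adj u v → (D u v ∨ D v u)) ∧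
        (∀ u v, D u v → (T.Adj u v ∧ ¬ D v u)) ∧
        ∀ m : ℕ, ∀ G : Fin m → Fin m → Prop,
          (∀ a, ¬ G a a) →
          (∀ a b, a ≠ b → (G a b ↔ ¬ G b a)) →
          (({f : Fin n → Fin m | ∀ u v, D u v → G (f u) (f v)}.ncard : ℝ) / (m : ℝ) ^ n
            ≤ ((1 : ℝ) / 2) ^ (T.edgeSet.ncard)) :=
  reduce2 fun b hb => goodBr_of_fin (H b hb)

/-- the same for a stronger reduction: no two equal children -/
theorem reduceFin' (H : ∀ b, Red (fun _ => True) b → ∃ O : OBr, O.forget = b ∧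
    ∀ (m : ℕ) (S : Fin m → Fin m → ℝ), Ker S → ip (O.vS S) (fun _ => 1) ≤ 1) :
    ∀ n : ℕ, ∀ T : SimpleGraph (Fin n), T.IsTree →
      ∃ D : Fin n → Fin n → Prop,
        (∀ u v, T.Adj u v → (D u v ∨ D v u)) ∧
        (∀ u v, D u v → (T.Adj u v ∧ ¬ D v u)) ∧
        ∀ m : ℕ, ∀ G : Fin m → Fin m → Prop,
          (∀ a, ¬ G a a) →
          (∀ a b, a ≠ b → (G a b ↔ ¬ G b a)) →
          (({f : Fin n → Fin m | ∀ u v, D u v → G (f u) (f v)}.ncard : ℝ) / (m : ℝ) ^ n
            ≤ ((1 : ℝ) / 2) ^ (T.edgeSet.ncard)) :=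
  reduce2 fun b _ => good_of_twinfree (fun b hb => goodBr_of_fin (H b hb)) b

end

end Pool.Agent.TSR
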