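import Mathlib

set_option autoImplicit false

/-!
# Sorted alternating signs (MP_d27362_co)
-/

namespace Pool.Agent.TSR

open Finset

/-- the alternating sum of a decreasing sequence -/
lemma alt_sum (n : ℕ) : ∀ a : ℕ → ℝ, Antitone a → (∀ i, 0 ≤ a i) →
    0 ≤ ∑ i ∈ range n, (-1 : ℝ) ^ i * a i ∧ ∑ i ∈ range n, (-1 : ℝ) ^ i * a i ≤ a 0 := by
  induction n using Nat.twoStepInduction with
  | zero => intro a _ h0; simp [h0 0]
  | one => intro a _ h0; simp [h0 0]
  | more n ih _ =>
    intro a ha h0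
    have h1 := ih (fun i => a (i + 2)) (fun i j hij => ha (by omega)) (fun i => h0 _)
    have e : ∑ i ∈ range (n + 2), (-1 : ℝ) ^ i * a i =
        a 0 - a 1 + ∑ i ∈ range n, (-1 : ℝ) ^ i * a (i + 2) := by
      rw [sum_range_succ', sum_range_succ']
      have : ∑ i ∈ range n, (-1 : ℝ) ^ (i + 1 + 1) * a (i + 1 + 1) =
          ∑ i ∈ range n, (-1 : ℝ) ^ i * a (i + 2) :=
        sum_congr rfl fun i _ => by rw [pow_succ, pow_succ]; ring
      rw [this]
      simp only [zero_add, pow_zero, pow_one]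
      ring
    rw [e]
    have h2 := ha (Nat.zero_le 1)
    have h3 := ha (show 1 ≤ 2 by norm_num)
    simp only [zero_add] at h1
    constructor <;> linarith [h1.1, h1.2]

lemma alt_count (n : ℕ) : ∑ i ∈ range n, (-1 : ℝ) ^ i = ((n % 2 : ℕ) : ℝ) := by
  induction n with
  | zero => simp
  | succ n ih =>
    rw [sum_range_succ, ih]
    rcases Nat.even_or_odd n with h | h
    · rw [h.neg_one_pow, Nat.even_iff.mp h]
      have : (n + 1) % 2 = 1 := by have := Nat.even_iff.mp h; omega
      rw [this]; norm_num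
    · rw [h.neg_one_pow, Nat.odd_iff.mp h]
      have : (n + 1) % 2 = 0 := by have := Nat.odd_iff.mp h; omega
      rw [this]; norm_num

/-- a finite family sorted in decreasing order -/
lemma exists_sorted {ι : Type*} [Fintype ι] (v : ι → ℝ) :
    ∃ r : Fin (Fintype.card ι) ≃ ι, Antitone fun i => v (r i) := by
  classical
  let e := (Fintype.equivFin ι).symm
  refine ⟨(Tuple.sort fun i => - v (e i)).trans e, fun i j hij => ?_⟩
  have := Tuple.monotone_sort (fun i => - v (e i)) hij
  simp only [Function.comp] at this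
  exact neg_le_neg_iff.mp this

/-- the extension of a decreasing nonnegative family by zero -/
noncomputable def ext0 {n : ℕ} (a : Fin n → ℝ) (i : ℕ) : ℝ := if h : i < n then a ⟨i, h⟩ else 0

lemma ext0_fin {n : ℕ} (a : Fin n → ℝ) (i : Fin n) : ext0 a i = a i := by
  unfold ext0; rw [dif_pos i.2]

lemma ext0_nonneg {n : ℕ} {a : Fin n → ℝ} (h : ∀ i, 0 ≤ a i) (i : ℕ) : 0 ≤ ext0 a i := by
  unfold ext0
  split_ifs
  · exact h _
  · exact le_rfl

lemma ext0_antitone {n : ℕ} {a : Fin n → ℝ} (ha : Antitone a) (h : ∀ i, 0 ≤ a i) :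
    Antitone (ext0 a) := by
  intro i j hij
  unfold ext0
  split_ifs with h1 h2
  · exact ha hij
  · exact absurd (lt_of_le_of_lt hij h1) h2
  · exact h _
  · exact le_rfl

/-- the sign at position `i` of the alternating pattern -/
def altB (i : ℕ) : Bool := decide (i % 2 = 0)

lemma altB_pow (i : ℕ) : (if altB i = true then (1 : ℝ) else -1) = (-1) ^ i := by
  unfold altB
  rcases Nat.even_or_odd i with h | h
  · rw [h.neg_one_pow]; simp [Nat.even_iff.mp h]
  · rw [h.neg_one_pow]; simp [Nat.odd_iff.mp h]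

/-- the sign of a Boolean -/
def bs (b : Bool) : ℝ := if b = true then 1 else -1

lemma bs_altB (i : ℕ) : bs (altB i) = (-1) ^ i := altB_pow i

/-- Alternating signs in the order of the values: the number of signs is balanced and the signed
sum is between `0` and the maximum. The family is sorted by `r` (in decreasing order), the
sign of `r i` is `(-1)^i`. -/
theorem stem_signs {ι : Type*} [Fintype ι] (v : ι → ℝ) (hv : ∀ i, 0 ≤ v i) :
    ∃ r : Fin (Fintype.card ι) ≃ ι, (Antitone fun i => v (r i)) ∧ ∃ σ : ι → Bool,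
      (∀ i, σ (r i) = altB i) ∧
      ∑ i, bs (σ i) = ((Fintype.card ι % 2 : ℕ) : ℝ) ∧ 0 ≤ ∑ i, bs (σ i) * v i ∧
      ∀ c, 0 ≤ c → (∀ i, v i ≤ c) → ∑ i, bs (σ i) * v i ≤ c := by
  obtain ⟨r, hr⟩ := exists_sorted v
  have h0 : ∀ i, 0 ≤ v (r i) := fun i => hv _
  have h1 := alt_sum (Fintype.card ι) (ext0 fun i => v (r i)) (ext0_antitone hr h0)
    (ext0_nonneg h0)
  have e1 : ∀ f : ι → ℝ, ∑ i, f i = ∑ i : Fin (Fintype.card ι), f (r i) := fun f =>
    (Equiv.sum_comp r f).symm
  have e2 : ∑ i ∈ range (Fintype.card ι), (-1 : ℝ) ^ i * ext0 (fun i => v (r i)) i =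
      ∑ i, bs (altB (r.symm i)) * v i := by
    rw [e1, ← Fin.sum_univ_eq_sum_range
      (fun i => (-1 : ℝ) ^ i * ext0 (fun i => v (r i)) i)]
    refine sum_congr rfl fun i _ => ?_
    rw [ext0_fin, Equiv.symm_apply_apply, bs_altB]
  refine ⟨r, hr, fun i => altB (r.symm i),
    fun i => by simp only [Equiv.symm_apply_apply], ?_, ?_, ?_⟩
  · rw [e1, ← alt_count, ← Fin.sum_univ_eq_sum_range (fun i => (-1 : ℝ) ^ i)]
    refine sum_congr rfl fun i _ => ?_
    simp only [Equiv.symm_apply_apply, bs_altB]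
  · rw [← e2]; exact h1.1
  · intro c hc h2
    rw [← e2]
    refine h1.2.trans ?_
    unfold ext0
    split_ifs
    · exact h2 _
    · exact hc

/-- Signs `+, +, -, +, - ...` in decreasing order: the signed sum is between `0` and the sum of
the two largest values. -/
theorem rev_signs {ι : Type*} [Fintype ι] (v : ι → ℝ) (hv : ∀ i, 0 ≤ v i) :
    ∃ r : Fin (Fintype.card ι) ≃ ι, (Antitone fun i => v (r i)) ∧ ∃ e : ι → Bool,
      (∀ i : Fin (Fintype.card ι), e (r i) = if (i : ℕ) = 0 then true else altB (i + 1)) ∧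
      0 ≤ ∑ i, bs (e i) * v i ∧
      ∀ c, 0 ≤ c → (∀ i, v i ≤ c) → ∑ i, bs (e i) * v i ≤ 2 * c := by
  obtain ⟨r, hr⟩ := exists_sorted v
  have h0 : ∀ i, 0 ≤ v (r i) := fun i => hv _
  set a := ext0 fun i => v (r i) with ha
  have ha1 : Antitone a := ext0_antitone hr h0
  have ha2 : ∀ i, 0 ≤ a i := ext0_nonneg h0
  have h1 := fun n => alt_sum n (fun i => a (i + 1)) (fun i j hij => ha1 (by omega))
    (fun i => ha2 _)
  set e : ι → Bool := fun i => if ((r.symm i : Fin _) : ℕ) = 0 then true else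
    altB ((r.symm i : Fin _) + 1) with he
  have e1 : ∑ i, bs (e i) * v i = ∑ i ∈ range (Fintype.card ι),
      bs (if i = 0 then true else altB (i + 1)) * a i := by
    rw [← Equiv.sum_comp r, ← Fin.sum_univ_eq_sum_range
      (fun i => bs (if i = 0 then true else altB (i + 1)) * a i)]
    refine sum_congr rfl fun i _ => ?_
    rw [ha, ext0_fin, he]
    simp only [Equiv.symm_apply_apply]
  have e2 : ∀ n, ∑ i ∈ range (n + 1), bs (if i = 0 then true else altB (i + 1)) * a i =
      a 0 + ∑ i ∈ range n, (-1 : ℝ) ^ i * a (i + 1) := by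
    intro n
    rw [sum_range_succ', if_pos rfl, add_comm]
    congr 1
    · simp [bs]
    · refine sum_congr rfl fun i _ => ?_
      rw [if_neg (by omega), bs_altB, pow_succ, pow_succ]
      ring
  refine ⟨r, hr, e, fun i => by simp only [he, Equiv.symm_apply_apply], ?_, ?_⟩
  · rw [e1]
    rcases Nat.eq_zero_or_pos (Fintype.card ι) with h | h
    · rw [h]; simp
    · obtain ⟨n, hn⟩ := Nat.exists_eq_succ_of_ne_zero h.ne'
      rw [hn, e2]
      exact add_nonneg (ha2 0) (h1 n).1
  · intro c hc h2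
    have h3 : ∀ i, a i ≤ c := by
      intro i
      rw [ha]
      unfold ext0
      split_ifs
      · exact h2 _
      · exact hc
    rw [e1]
    rcases Nat.eq_zero_or_pos (Fintype.card ι) with h | h
    · rw [h]; simp; exact hc
    · obtain ⟨n, hn⟩ := Nat.exists_eq_succ_of_ne_zero h.ne'
      rw [hn, e2]
      have := (h1 n).2
      simp only [zero_add] at this
      linarith [h3 0, h3 1]

end Pool.Agent.TSR
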