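import Pool.Agent.TFin.Targets2
import Pool.Agent.TFin.CONV
import Pool.Agent.TFin.INV
import Pool.Agent.TLT.BAS

set_option autoImplicit false

/-!
# Rooted trees, oriented rooted trees and their values (MP_d27362_co)

`Br` are the (ordered) rooted trees, `OBr` the rooted trees with a direction on every edge.
`O.val K x` is the normalised number of homomorphisms of `O` to the kernel `K` with the root at `x`.
The final theorem `reduce` says that the frozen statement follows if every reduced rooted tree
(at every vertex at most one child of each cancellable type) has an orientation with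
`av (O.val K) ≤ 1` for all kernels `K`.
-/

namespace Pool.Agent.TSR

open Finset
open Pool.Agent.TLT (av Krn Sop dl xx sg Kd)
open Pool.Agent.TFin (RT ch IsVal)

/-- rooted trees: `nil` is one vertex, `cons c t` is `t` with the additional branch `c` at the
root -/
inductive Br : Type
  | nil : Br
  | cons : Br → Br → Br

/-- rooted trees with a direction on every edge -/
inductive OBr : Type
  | nil : OBr
  | cons : Bool → OBr → OBr → OBr

namespace Br

/-- the branches at the root -/
def kids : Br → List Br
  | nil => []
  | cons c t => c :: t.kids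

/-- the tree with given branches at the root -/
def mk : List Br → Br
  | [] => nil
  | c :: l => cons c (mk l)

@[simp] lemma kids_nil : kids nil = [] := rfl
@[simp] lemma kids_cons (c t : Br) : kids (cons c t) = c :: t.kids := rfl
@[simp] lemma mk_nil : mk [] = nil := rfl
@[simp] lemma mk_cons (c : Br) (l : List Br) : mk (c :: l) = cons c (mk l) := rfl

@[simp] lemma kids_mk (l : List Br) : (mk l).kids = l := by
  induction l with
  | nil => rfl
  | cons c l ih => rw [mk_cons, kids_cons, ih]

@[simp] lemma mk_kids (b : Br) : mk b.kids = b := by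
  induction b with
  | nil => rfl
  | cons c t _ ih => rw [kids_cons, mk_cons, ih]

/-- number of vertices -/
def size : Br → ℕ
  | nil => 1
  | cons c t => c.size + t.size

lemma size_pos (b : Br) : 0 < b.size := by
  induction b with
  | nil => exact Nat.one_pos
  | cons c t _ ih => exact Nat.add_pos_right _ ih

lemma size_lt_of_mem {b c : Br} (h : c ∈ b.kids) : c.size < b.size := by
  induction b with
  | nil => simp at h
  | cons d t _ ih =>
    rw [kids_cons, List.mem_cons] at h
    have h1 := size_pos t
    have h2 := size_pos d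
    rcases h with h | h
    · subst h
      show c.size < c.size + t.size
      omega
    · have := ih h
      show c.size < d.size + t.size
      omega

/-- induction over the branches at the root -/
theorem induct {P : Br → Prop} (h : ∀ b, (∀ c ∈ b.kids, P c) → P b) (b : Br) : P b := by
  have : ∀ n : ℕ, ∀ b : Br, b.size ≤ n → P b := by
    intro n
    induction n with
    | zero =>
      intro b hb
      exact absurd (size_pos b) (by omega)
    | succ n ih =>
      intro b hb
      exact h b fun c hc => ih c (by have := size_lt_of_mem hc; omega)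
  exact this _ b le_rfl

end Br

namespace OBr

/-- the branches at the root with the directions of the edges above them -/
def kids : OBr → List (Bool × OBr)
  | nil => []
  | cons s c t => (s, c) :: t.kids

/-- the tree with given branches at the root -/
def mk : List (Bool × OBr) → OBr
  | [] => nil
  | p :: l => cons p.1 p.2 (mk l)

@[simp] lemma kids_nil : kids nil = [] := rfl
@[simp] lemma kids_cons (s : Bool) (c t : OBr) : kids (cons s c t) = (s, c) :: t.kids := rfl
@[simp] lemma mk_nil : mk [] = nil := rfl
@[simp] lemma mk_cons (p : Bool × OBr) (l : List (Bool × OBr)) :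
    mk (p :: l) = cons p.1 p.2 (mk l) := rfl

@[simp] lemma kids_mk (l : List (Bool × OBr)) : (mk l).kids = l := by
  induction l with
  | nil => rfl
  | cons c l ih => rw [mk_cons, kids_cons, ih]

@[simp] lemma mk_kids (b : OBr) : mk b.kids = b := by
  induction b with
  | nil => rfl
  | cons s c t _ ih => rw [kids_cons, mk_cons, ih]

/-- forget the directions -/
def forget : OBr → Br
  | nil => .nil
  | cons _ c t => .cons c.forget t.forget

@[simp] lemma forget_nil : forget nil = .nil := rfl
@[simp] lemma forget_cons (s : Bool) (c t : OBr) :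
    forget (cons s c t) = .cons c.forget t.forget := rfl

lemma forget_mk (l : List (Bool × OBr)) :
    (mk l).forget = Br.mk (l.map fun p => p.2.forget) := by
  induction l with
  | nil => rfl
  | cons p l ih => rw [mk_cons, forget_cons, ih, List.map_cons, Br.mk_cons]

lemma kids_forget (O : OBr) : O.forget.kids = O.kids.map fun p => p.2.forget := by
  induction O with
  | nil => rfl
  | cons s c t _ ih => rw [forget_cons, Br.kids_cons, ih, kids_cons, List.map_cons]

/-- reverse all directions -/
def rev : OBr → OBr
  | nil => nil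
  | cons s c t => cons (!s) c.rev t.rev

@[simp] lemma rev_nil : rev nil = nil := rfl
@[simp] lemma rev_cons (s : Bool) (c t : OBr) : rev (cons s c t) = cons (!s) c.rev t.rev := rfl

@[simp] lemma rev_rev (O : OBr) : O.rev.rev = O := by
  induction O with
  | nil => rfl
  | cons s c t ih1 ih2 => rw [rev_cons, rev_cons, ih1, ih2, Bool.not_not]

@[simp] lemma forget_rev (O : OBr) : O.rev.forget = O.forget := by
  induction O with
  | nil => rfl
  | cons s c t ih1 ih2 => rw [rev_cons, forget_cons, forget_cons, ih1, ih2]

lemma rev_mk (l : List (Bool × OBr)) :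
    (mk l).rev = mk (l.map fun p => (!p.1, p.2.rev)) := by
  induction l with
  | nil => rfl
  | cons p l ih => rw [mk_cons, rev_cons, ih, List.map_cons, mk_cons]

end OBr

noncomputable section

/-- the message along an edge with direction `s` -/
def ms {W : Type} [Fintype W] (K : W → W → ℝ) (s : Bool) (f : W → ℝ) (x : W) : ℝ :=
  av f + sg s * Sop K f x

/-- the normalised number of homomorphisms with the root at `x` -/
def OBr.val {W : Type} [Fintype W] (K : W → W → ℝ) : OBr → W → ℝ
  | .nil => fun _ => 1
  | .cons s c t => fun x => ms K s (c.val K) x * t.val K x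

section Val

variable {W : Type} [Fintype W] (K : W → W → ℝ)

@[simp] lemma val_nil (x : W) : OBr.nil.val K x = 1 := rfl

@[simp] lemma val_cons (s : Bool) (c t : OBr) (x : W) :
    (OBr.cons s c t).val K x = ms K s (c.val K) x * t.val K x := rfl

lemma val_mk (l : List (Bool × OBr)) (x : W) :
    (OBr.mk l).val K x = (l.map fun p => ms K p.1 (p.2.val K) x).prod := by
  induction l with
  | nil => rfl
  | cons p l ih => rw [OBr.mk_cons, val_cons, ih, List.map_cons, List.prod_cons]

variable {K}

lemma sg_true : sg true = 1 := rfl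
lemma sg_false : sg false = -1 := rfl

lemma ms_eq_Kd [Nonempty W] (hK : Krn K) (s : Bool) (f : W → ℝ) (x : W) :
    ms K s f x = Kd K s f x := by
  have h := TLT.p_BAS W K hK
  cases s
  · rw [h.2.2.2.2.1 f x, ms, sg_false]
    ring
  · rw [h.2.2.2.1 f x, ms, sg_true]
    ring

lemma ms_mono [Nonempty W] (hK : Krn K) (s : Bool) {f g : W → ℝ} (h : ∀ y, f y ≤ g y) (x : W) :
    ms K s f x ≤ ms K s g x := by
  rw [ms_eq_Kd hK, ms_eq_Kd hK]
  exact (TLT.p_BAS W K hK).2.2.2.2.2.1 s f g h x

lemma av_zero : av (fun _ : W => (0 : ℝ)) = 0 := by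
  unfold TLT.av
  simp

lemma av_one [Nonempty W] : av (fun _ : W => (1 : ℝ)) = 1 := by
  unfold TLT.av
  have hcard : (0 : ℝ) < Fintype.card W := by exact_mod_cast Fintype.card_pos
  rw [Finset.sum_const, Finset.card_univ, nsmul_eq_mul, mul_one, div_self hcard.ne']

lemma ms_zero (s : Bool) (x : W) : ms K s (fun _ => 0) x = 0 := by
  unfold ms
  have : (fun _ : W => (0 : ℝ)) = 0 := rfl
  rw [av_zero, this, map_zero]
  simp

lemma ms_nonneg [Nonempty W] (hK : Krn K) (s : Bool) {f : W → ℝ} (h : ∀ y, 0 ≤ f y) (x : W) :
    0 ≤ ms K s f x := by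
  have := ms_mono hK s h x
  rwa [ms_zero] at this

lemma val_nonneg [Nonempty W] (hK : Krn K) (O : OBr) (x : W) : 0 ≤ O.val K x := by
  induction O generalizing x with
  | nil => exact zero_le_one
  | cons s c t ih1 ih2 => exact mul_nonneg (ms_nonneg hK s ih1 x) (ih2 x)

/-- the transposed kernel -/
def tr (K : W → W → ℝ) : W → W → ℝ := fun x y => K y x

omit [Fintype W] in
lemma Krn_tr (hK : Krn K) : Krn (tr K) :=
  ⟨fun x y => hK.nonneg y x, fun x y => hK.add y x⟩

omit [Fintype W] in
lemma tr_tr (K : W → W → ℝ) : tr (tr K) = K := rfl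

lemma Sop_tr (hK : Krn K) (f : W → ℝ) (x : W) : Sop (tr K) f x = - Sop K f x := by
  have e1 : Sop (tr K) f x = av fun y => (K y x - 1) * f y := rfl
  have e2 : Sop K f x = av fun y => (K x y - 1) * f y := rfl
  rw [e1, e2]
  unfold TLT.av
  rw [← neg_div, ← Finset.sum_neg_distrib]
  congr 1
  refine Finset.sum_congr rfl fun y _ => ?_
  have := hK.add x y
  have h3 : K y x = 2 - K x y := by linarith
  show (K y x - 1) * f y = - ((K x y - 1) * f y)
  rw [h3]
  ring

lemma sg_not (s : Bool) : sg (!s) = - sg s := by
  cases s
  · rw [Bool.not_false, sg_true, sg_false, neg_neg]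
  · rw [Bool.not_true, sg_true, sg_false]

lemma ms_not (hK : Krn K) (s : Bool) (f : W → ℝ) (x : W) :
    ms K (!s) f x = ms (tr K) s f x := by
  unfold ms
  rw [Sop_tr hK, sg_not]
  ring

/-- reversal of all directions is transposition of the kernel -/
lemma val_rev (hK : Krn K) (O : OBr) : O.rev.val K = O.val (tr K) := by
  induction O with
  | nil => rfl
  | cons s c t ih1 ih2 =>
    funext x
    rw [OBr.rev_cons, val_cons, val_cons, ih1, ih2, ms_not hK]

lemma twin_le [Nonempty W] (f : W → ℝ) (hf : av f ≤ 1) (hf0 : 0 ≤ av f) (x : W) :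
    ms K false f x * ms K true f x ≤ 1 := by
  unfold ms
  rw [sg_true, sg_false]
  nlinarith [sq_nonneg (Sop K f x)]

lemma av_nonneg {f : W → ℝ} (h : ∀ y, 0 ≤ f y) : 0 ≤ av f :=
  div_nonneg (Finset.sum_nonneg fun y _ => h y) (Nat.cast_nonneg _)

end Val

/-! ### Cancelling twins -/

/-- `b` has an orientation of density at most one -/
def GoodBr (b : Br) : Prop :=
  ∃ O : OBr, O.forget = b ∧ ∀ (W : Type) [Fintype W] [Nonempty W] (K : W → W → ℝ), Krn K →
    av (O.val K) ≤ 1

/-- reduced: at every vertex no two equal children of type `Cn` -/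
def Red (Cn : Br → Prop) : Br → Prop
  | .nil => True
  | .cons c t => Red Cn c ∧ Red Cn t ∧ (Cn c → c ∉ t.kids)

open Classical in
/-- remove the first branch equal to `p` -/
def rm (p : Br) : Br → Br
  | .nil => .nil
  | .cons c t => if c = p then t else .cons c (rm p t)

open Classical in
/-- the reduced tree -/
def red (Cn : Br → Prop) : Br → Br
  | .nil => .nil
  | .cons c t => if Cn (red Cn c) ∧ red Cn c ∈ (red Cn t).kids then rm (red Cn c) (red Cn t)
      else .cons (red Cn c) (red Cn t)

lemma kids_rm_subset (p t : Br) : ∀ c ∈ (rm p t).kids, c ∈ t.kids := by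
  induction t with
  | nil => intro c hc; exact hc
  | cons d t _ ih =>
    intro c hc
    unfold rm at hc
    rw [Br.kids_cons, List.mem_cons]
    split_ifs at hc with h
    · exact Or.inr hc
    · rw [Br.kids_cons, List.mem_cons] at hc
      rcases hc with hc | hc
      · exact Or.inl hc
      · exact Or.inr (ih c hc)

lemma Red_rm {Cn : Br → Prop} (p : Br) {t : Br} (h : Red Cn t) : Red Cn (rm p t) := by
  induction t with
  | nil => exact h
  | cons d t _ ih =>
    unfold rm
    split_ifs with h1
    · exact h.2.1
    · exact ⟨h.1, ih h.2.1, fun h2 h3 => h.2.2 h2 (kids_rm_subset p t d h3)⟩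

lemma Red_red (Cn : Br → Prop) (b : Br) : Red Cn (red Cn b) := by
  induction b with
  | nil => exact trivial
  | cons c t ih1 ih2 =>
    unfold red
    split_ifs with h
    · exact Red_rm _ ih2
    · refine ⟨ih1, ih2, fun h1 h2 => h ⟨h1, h2⟩⟩

lemma Red_kids {Cn : Br → Prop} {b : Br} (h : Red Cn b) : ∀ c ∈ b.kids, Red Cn c := by
  induction b with
  | nil => intro c hc; simp at hc
  | cons d t _ ih =>
    intro c hc
    rw [Br.kids_cons, List.mem_cons] at hc
    rcases hc with rfl | hc
    · exact h.1
    · exact ih h.2.1 c hc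

/-- a reduced tree has at most one child of each cancellable type -/
lemma Red_pairwise {Cn : Br → Prop} {b : Br} (h : Red Cn b) :
    b.kids.Pairwise fun c d => Cn c → c ≠ d := by
  induction b with
  | nil => exact List.Pairwise.nil
  | cons d t _ ih =>
    rw [Br.kids_cons, List.pairwise_cons]
    exact ⟨fun e he h1 h2 => h.2.2 h1 (h2 ▸ he), ih h.2.1⟩

/-- putting a branch back -/
lemma unrm {p : Br} {t : Br} (hp : p ∈ t.kids) (s : Bool) (P O : OBr) (hP : P.forget = p)
    (hO : O.forget = rm p t) : ∃ T : OBr, T.forget = t ∧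
      ∀ (W : Type) [Fintype W] (K : W → W → ℝ) (x : W),
        T.val K x = ms K s (P.val K) x * O.val K x := by
  induction t generalizing O with
  | nil => simp at hp
  | cons d t _ ih =>
    unfold rm at hO
    split_ifs at hO with h
    · refine ⟨.cons s P O, ?_, fun W _ K x => rfl⟩
      rw [OBr.forget_cons, hP, hO, h]
    · rw [Br.kids_cons, List.mem_cons] at hp
      rcases hp with hp | hp
      · exact absurd hp.symm h
      · cases O with
        | nil => simp at hO
        | cons s' c' O' =>
          rw [OBr.forget_cons, Br.cons.injEq] at hO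
          obtain ⟨T, hT, hv⟩ := ih hp O' hO.2
          refine ⟨.cons s' c' T, ?_, fun W _ K x => ?_⟩
          · rw [OBr.forget_cons, hT, hO.1]
          · rw [val_cons, hv, val_cons]
            ring

/-- every orientation of the reduced tree gives an orientation of the tree of at most the same
value -/
theorem unred {Cn : Br → Prop} (hCn : ∀ p, Cn p → GoodBr p) (b : Br) (O' : OBr)
    (hO' : O'.forget = red Cn b) : ∃ O : OBr, O.forget = b ∧
      ∀ (W : Type) [Fintype W] [Nonempty W] (K : W → W → ℝ), Krn K → ∀ x,
        O.val K x ≤ O'.val K x := by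
  induction b generalizing O' with
  | nil =>
    refine ⟨.nil, rfl, ?_⟩
    intro W _ _ K hK x
    cases O' with
    | nil => exact le_rfl
    | cons s c t => simp [red] at hO'
  | cons c t ih1 ih2 =>
    unfold red at hO'
    split_ifs at hO' with h
    · obtain ⟨P, hP, hP1⟩ := hCn _ h.1
      obtain ⟨T', hT', hv'⟩ := unrm h.2 true P O' hP hO'
      obtain ⟨T, hT, hv⟩ := ih2 T' hT'
      obtain ⟨C, hC, hc⟩ := ih1 P hP
      refine ⟨.cons false C T, by rw [OBr.forget_cons, hC, hT], ?_⟩
      intro W _ _ K hK x
      rw [val_cons]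
      have h1 : ms K false (C.val K) x ≤ ms K false (P.val K) x :=
        ms_mono hK false (hc W K hK) x
      have h2 := hv W K hK x
      rw [hv' W K x] at h2
      have h3 := twin_le (K := K) (P.val K) (hP1 W K hK) (av_nonneg (val_nonneg hK P)) x
      have h4 := val_nonneg hK O' x
      have h5 := ms_nonneg hK false (val_nonneg hK P) x
      have h6 := val_nonneg hK T x
      calc ms K false (C.val K) x * T.val K x
          ≤ ms K false (P.val K) x * (ms K true (P.val K) x * O'.val K x) :=
            mul_le_mul h1 h2 h6 h5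
        _ = (ms K false (P.val K) x * ms K true (P.val K) x) * O'.val K x := by ring
        _ ≤ 1 * O'.val K x := mul_le_mul_of_nonneg_right h3 h4
        _ = O'.val K x := one_mul _
    · cases O' with
      | nil => simp at hO'
      | cons s c' t' =>
        rw [OBr.forget_cons, Br.cons.injEq] at hO'
        obtain ⟨C, hC, hc⟩ := ih1 c' hO'.1
        obtain ⟨T, hT, ht⟩ := ih2 t' hO'.2
        refine ⟨.cons s C T, by rw [OBr.forget_cons, hC, hT], ?_⟩
        intro W _ _ K hK x
        rw [val_cons, val_cons]
        exact mul_le_mul (ms_mono hK s (hc W K hK) x) (ht W K hK x) (val_nonneg hK T x)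
          (ms_nonneg hK s (val_nonneg hK c') x)

lemma av_mono' {W : Type} [Fintype W] {f g : W → ℝ} (h : ∀ x, f x ≤ g x) : av f ≤ av g :=
  TLT.BAS_.av_mono h

/-- it is enough to treat reduced trees -/
theorem good_of_red {Cn : Br → Prop} (hCn : ∀ p, Cn p → GoodBr p)
    (H : ∀ b, Red Cn b → GoodBr b) (b : Br) : GoodBr b := by
  obtain ⟨O', hO', h1⟩ := H _ (Red_red Cn b)
  obtain ⟨O, hO, h2⟩ := unred hCn b O' hO'
  exact ⟨O, hO, fun W _ _ K hK => (av_mono' (h2 W K hK)).trans (h1 W K hK)⟩

lemma size_rm (p t : Br) : (rm p t).size ≤ t.size := by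
  induction t with
  | nil => exact le_rfl
  | cons d t _ ih =>
    unfold rm
    split_ifs with h
    · show t.size ≤ d.size + t.size
      omega
    · show d.size + (rm p t).size ≤ d.size + t.size
      omega

lemma size_red (Cn : Br → Prop) (b : Br) : (red Cn b).size ≤ b.size := by
  induction b with
  | nil => exact le_rfl
  | cons c t ih1 ih2 =>
    unfold red
    split_ifs with h
    · have := size_rm (red Cn c) (red Cn t)
      show _ ≤ c.size + t.size
      omega
    · show (red Cn c).size + (red Cn t).size ≤ c.size + t.size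
      omega

/-- it is enough to treat trees without two equal children -/
theorem good_of_twinfree (H : ∀ b, Red (fun _ => True) b → GoodBr b) (b : Br) : GoodBr b := by
  have main : ∀ n : ℕ, ∀ b : Br, b.size ≤ n → GoodBr b := by
    intro n
    induction n with
    | zero =>
      intro b hb
      exact absurd (Br.size_pos b) (by omega)
    | succ n ih =>
      intro b hb
      have key : ∀ d : Br, d.size ≤ n + 1 → Red GoodBr d → Red (fun _ => True) d := by
        intro d
        induction d with
        | nil => intro _ _; exact trivial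
        | cons c t ih1 ih2 =>
          intro hs hd
          have hs' : c.size + t.size ≤ n + 1 := hs
          have h1 := Br.size_pos c
          have h2 := Br.size_pos t
          exact ⟨ih1 (by omega) hd.1, ih2 (by omega) hd.2.1, fun _ =>
            hd.2.2 (ih c (by omega))⟩
      obtain ⟨O', hO', h1⟩ := H _ (key _ ((size_red GoodBr b).trans hb) (Red_red GoodBr b))
      obtain ⟨O, hO, h2⟩ := unred (fun p hp => hp) b O' hO'
      exact ⟨O, hO, fun W _ _ K hK => (av_mono' (h2 W K hK)).trans (h1 W K hK)⟩
  exact main _ b le_rfl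

/-! ### Transport to graphs -/

/-- a list whose image is the image of a list without repetition -/
lemma exists_map {α β γ : Type} [DecidableEq α] (f : β → γ) (g : α → γ) (l : List α)
    (hl : l.Nodup) (L : List β) (h : L.map f = l.map g) (b0 : β) :
    ∃ h : α → β, L = l.map h ∧ ∀ c ∈ l, f (h c) = g c := by
  induction l generalizing L with
  | nil =>
    rw [List.map_nil, List.map_eq_nil_iff] at h
    exact ⟨fun _ => b0, by rw [h, List.map_nil], by simp⟩
  | cons a l ih =>
    cases L with
    | nil => simp at h
    | cons b L =>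
      rw [List.map_cons, List.map_cons, List.cons.injEq] at h
      rw [List.nodup_cons] at hl
      obtain ⟨h', h1, h2⟩ := ih hl.2 L h.2
      refine ⟨fun c => if c = a then b else h' c, ?_, ?_⟩
      · rw [List.map_cons, if_pos rfl, h1]
        congr 1
        refine List.map_congr_left fun c hc => ?_
        rw [if_neg]
        rintro rfl
        exact hl.1 hc
      · intro c hc
        rw [List.mem_cons] at hc
        show f (if c = a then b else h' c) = g c
        split_ifs with h3
        · rw [h3]; exact h.1
        · rcases hc with hc | hc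
          · exact absurd hc h3
          · exact h2 c hc

section Transport

variable {V : Type} [Fintype V] [DecidableEq V] (par : V → V) (r : V)

/-- the rooted tree of the descendants of `v` up to distance `n` -/
def brV : ℕ → V → Br
  | 0, _ => .nil
  | n + 1, v => .mk ((ch par r v).toList.map fun c => brV n c)

/-- the same with directions -/
def obrV (o : V → Bool) : ℕ → V → OBr
  | 0, _ => .nil
  | n + 1, v => .mk ((ch par r v).toList.map fun c => (o c, obrV o n c))

lemma forget_obrV (o : V → Bool) (n : ℕ) (v : V) :
    (obrV par r o n v).forget = brV par r n v := by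
  induction n generalizing v with
  | zero => rfl
  | succ n ih =>
    unfold obrV brV
    rw [OBr.forget_mk, List.map_map]
    congr 1
    refine List.map_congr_left fun c _ => ?_
    exact ih c

variable {par r}

/-- `x` is a strict descendant of `v` -/
def Below (par : V → V) (r v x : V) : Prop :=
  ∃ i, par^[i + 1] x = v ∧ ∀ j ≤ i, par^[j] x ≠ r

omit [Fintype V] [DecidableEq V] in
lemma dep_iter {dep : V → ℕ} (hR : RT par dep r) {i : ℕ} {x : V} (h : ∀ j ≤ i, par^[j] x ≠ r) :
    dep (par^[i + 1] x) < dep x := by
  induction i with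
  | zero =>
    have := hR.step x (h 0 le_rfl)
    rw [Function.iterate_succ_apply', Function.iterate_zero_apply]
    omega
  | succ i ih =>
    have h1 := ih fun j hj => h j (by omega)
    have h2 := hR.step _ (h (i + 1) le_rfl)
    rw [Function.iterate_succ_apply']
    omega

lemma mem_ch {v c : V} : c ∈ ch par r v ↔ c ≠ r ∧ par c = v := by
  unfold TFin.ch
  simp

lemma Below_child {v c : V} (hc : c ∈ ch par r v) : Below par r v c := by
  rw [mem_ch] at hc
  refine ⟨0, hc.2, fun j hj => ?_⟩
  have : j = 0 := by omega
  rw [this]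
  exact hc.1

lemma Below_trans {v c x : V} (hc : c ∈ ch par r v) (h : Below par r c x) :
    Below par r v x := by
  rw [mem_ch] at hc
  obtain ⟨i, h1, h2⟩ := h
  refine ⟨i + 1, by rw [Function.iterate_succ_apply', h1, hc.2], fun j hj => ?_⟩
  rcases Nat.lt_or_ge j (i + 1) with h3 | h3
  · exact h2 j (by omega)
  · have : j = i + 1 := by omega
    rw [this, h1]
    exact hc.1

omit [Fintype V] [DecidableEq V] in
lemma Below_dep {dep : V → ℕ} (hR : RT par dep r) {v x : V} (h : Below par r v x) :
    dep v < dep x := by
  obtain ⟨i, h1, h2⟩ := h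
  rw [← h1]
  exact dep_iter hR h2

lemma Below_not_child {dep : V → ℕ} (hR : RT par dep r) {v c x : V} (hc : c ∈ ch par r v)
    (h : Below par r c x) : x ∉ ch par r v := by
  intro hx
  have h1 := Below_dep hR (Below_child hc)
  rw [mem_ch] at hx
  obtain ⟨i, h2, h3⟩ := h
  cases i with
  | zero =>
    have h4 : par x = c := h2
    rw [hx.2] at h4
    rw [h4] at h1
    exact lt_irrefl _ h1
  | succ i =>
    have h4 : par^[i + 1] v = c := by
      rw [← h2, Function.iterate_succ_apply par (i + 1) x, hx.2]
    have h5 : ∀ j ≤ i, par^[j] v ≠ r := by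
      intro j hj
      have := h3 (j + 1) (by omega)
      rwa [Function.iterate_succ_apply, hx.2] at this
    have h6 := dep_iter hR h5
    rw [h4] at h6
    omega

lemma Below_unique {dep : V → ℕ} (hR : RT par dep r) {v c c' x : V} (hc : c ∈ ch par r v)
    (hc' : c' ∈ ch par r v) (h : Below par r c x) (h' : Below par r c' x) : c = c' := by
  have h7 := Below_dep hR (Below_child hc)
  have h8 := Below_dep hR (Below_child hc')
  rw [mem_ch] at hc hc'
  obtain ⟨i, h1, h2⟩ := h
  obtain ⟨j, h3, h4⟩ := h'
  have key : ∀ (c c' : V) (i j : ℕ), par c = v → par^[i + 1] x = c → par^[j + 1] x = c' →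
      (∀ k ≤ j, par^[k] x ≠ r) → i < j → dep c' ≤ dep v := by
    intro c c' i j h1 h2 h3 h4 hij
    have e1 : par^[i + 2] x = v := by rw [Function.iterate_succ_apply', h2, h1]
    obtain ⟨k, rfl⟩ : ∃ k, j = i + 1 + k := ⟨j - i - 1, by omega⟩
    have e2 : par^[k] v = c' := by
      rw [← e1, ← Function.iterate_add_apply, ← h3]
      congr 1
      omega
    cases k with
    | zero => rw [← e2]; exact le_rfl
    | succ k =>
      have h5 : ∀ l ≤ k, par^[l] v ≠ r := by
        intro l hl
        rw [← e1, ← Function.iterate_add_apply]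
        exact h4 _ (by omega)
      have := dep_iter hR h5
      rw [e2] at this
      omega
  rcases lt_trichotomy i j with h5 | h5 | h5
  · have := key c c' i j hc.2 h1 h3 h4 h5
    omega
  · rw [← h1, ← h3, h5]
  · have := key c' c j i hc'.2 h3 h1 h2 h5
    omega

lemma obrV_congr {o o' : V → Bool} {n : ℕ} {v : V} (h : ∀ x, Below par r v x → o x = o' x) :
    obrV par r o n v = obrV par r o' n v := by
  induction n generalizing v with
  | zero => rfl
  | succ n ih =>
    unfold obrV
    congr 1
    refine List.map_congr_left fun c hc => ?_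
    rw [Finset.mem_toList] at hc
    rw [h c (Below_child hc), ih fun x hx => h x (Below_trans hc hx)]

/-- every orientation of the rooted tree comes from one of the graph -/
lemma exists_o {dep : V → ℕ} (hR : RT par dep r) (n : ℕ) : ∀ (v : V) (O : OBr),
    O.forget = brV par r n v → ∃ o : V → Bool, obrV par r o n v = O := by
  classical
  induction n with
  | zero =>
    intro v O hO
    refine ⟨fun _ => true, ?_⟩
    cases O with
    | nil => rfl
    | cons s c t => simp [brV] at hO
  | succ n ih =>
    intro v O hO
    have h1 : O.kids.map (fun p => p.2.forget) =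
        (ch par r v).toList.map fun c => brV par r n c := by
      rw [← OBr.kids_forget, hO]
      exact Br.kids_mk _
    obtain ⟨h, h2, h3⟩ := exists_map _ _ _ (Finset.nodup_toList _) _ h1 (true, .nil)
    have h4 : ∀ c : V, ∃ o : V → Bool, c ∈ ch par r v → obrV par r o n c = (h c).2 := by
      intro c
      by_cases hc : c ∈ ch par r v
      · obtain ⟨o, ho⟩ := ih c (h c).2 (h3 c (Finset.mem_toList.2 hc))
        exact ⟨o, fun _ => ho⟩
      · exact ⟨fun _ => true, fun h => absurd h hc⟩
    choose q hq using h4
    let o : V → Bool := fun x =>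
      if x ∈ ch par r v then (h x).1
      else if hx : ∃ c ∈ ch par r v, Below par r c x then q hx.choose x else true
    have ho1 : ∀ c ∈ ch par r v, o c = (h c).1 := fun c hc => if_pos hc
    have ho2 : ∀ c ∈ ch par r v, ∀ x, Below par r c x → o x = q c x := by
      intro c hc x hx
      have h5 : x ∉ ch par r v := Below_not_child hR hc hx
      have h6 : ∃ c ∈ ch par r v, Below par r c x := ⟨c, hc, hx⟩
      have h7 : h6.choose = c := Below_unique hR h6.choose_spec.1 hc h6.choose_spec.2 hx
      show (if x ∈ ch par r v then (h x).1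
        else if hx : ∃ c ∈ ch par r v, Below par r c x then q hx.choose x else true) = q c x
      rw [if_neg h5, dif_pos h6, h7]
    refine ⟨o, ?_⟩
    unfold obrV
    rw [← OBr.mk_kids O, h2]
    congr 1
    refine List.map_congr_left fun c hc => ?_
    rw [Finset.mem_toList] at hc
    rw [ho1 c hc, obrV_congr (ho2 c hc), hq c hc]

/-- the recursion on the graph computes the value -/
lemma val_obrV {dep : V → ℕ} (hR : RT par dep r) {W : Type} [Fintype W] (K : W → W → ℝ)
    (o : V → Bool) (F : V → W → ℝ) (hF : IsVal par r ∅ (fun c => sg (o c)) K F) (D : ℕ)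
    (hD : ∀ v, dep v ≤ D) (n : ℕ) : ∀ v, D + 1 ≤ dep v + n →
      F v = (obrV par r o n v).val K := by
  induction n with
  | zero =>
    intro v hv
    have := hD v
    omega
  | succ n ih =>
    intro v hv
    funext x
    rw [hF v x]
    unfold obrV
    rw [val_mk, List.map_map, Finset.sdiff_empty, ← Finset.prod_map_toList]
    congr 1
    refine List.map_congr_left fun c hc => ?_
    rw [Finset.mem_toList, mem_ch] at hc
    have h1 := hR.step c hc.1
    rw [hc.2] at h1
    rw [ih c (by omega)]
    rfl

end Transport

/-- every tree has a good orientation if all rooted trees have one -/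
theorem antiSidorenko (H : ∀ b, GoodBr b) {V : Type} [Fintype V] (T : SimpleGraph V)
    (hT : T.IsTree) : TFin.Twin.AntiSidorenko T := by
  classical
  obtain ⟨r⟩ : Nonempty V := hT.1.nonempty
  have : Nonempty V := ⟨r⟩
  refine TFin.p_INV.2 V T ?_
  obtain ⟨par, dep, hR, -, -, h⟩ := TFin.p_CONV V T hT r
  refine h ?_
  obtain ⟨D, hD⟩ : ∃ D, ∀ v, dep v ≤ D := ⟨Finset.univ.sup dep, fun v =>
    Finset.le_sup (Finset.mem_univ v)⟩
  obtain ⟨O, hO, h1⟩ := H (brV par r (D + 1) r)
  obtain ⟨o, ho⟩ := exists_o hR (D + 1) r O hO
  have hsg : ∀ b : Bool, sg b = 1 ∨ sg b = -1 := by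
    intro b
    cases b
    · exact Or.inr rfl
    · exact Or.inl rfl
  refine ⟨fun c => sg (o c), fun c => hsg (o c), ?_⟩
  · intro W _ _ K hK F hF
    rw [val_obrV hR K o F hF D hD (D + 1) r (by omega), ho]
    exact h1 W K hK

/-- The frozen statement follows if every reduced rooted tree has a good orientation. -/
theorem reduce {Cn : Br → Prop} (hCn : ∀ p, Cn p → GoodBr p) (H : ∀ b, Red Cn b → GoodBr b) :
    ∀ n : ℕ, ∀ T : SimpleGraph (Fin n), T.IsTree →
      ∃ D : Fin n → Fin n → Prop,
        (∀ u v, T.Adj u v → (D u v ∨ D v u)) ∧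
        (∀ u v, D u v → (T.Adj u v ∧ ¬ D v u)) ∧
        ∀ m : ℕ, ∀ G : Fin m → Fin m → Prop,
          (∀ a, ¬ G a a) →
          (∀ a b, a ≠ b → (G a b ↔ ¬ G b a)) →
          (({f : Fin n → Fin m | ∀ u v, D u v → G (f u) (f v)}.ncard : ℝ) / (m : ℝ) ^ n
            ≤ ((1 : ℝ) / 2) ^ (T.edgeSet.ncard)) := by
  intro n T hT
  obtain ⟨D, hD, h1⟩ := antiSidorenko (good_of_red hCn H) T hT
  refine ⟨D, hD.1, hD.2, fun m G hG1 hG2 => ?_⟩
  have := h1 m G ⟨hG1, hG2⟩
  rwa [Fintype.card_fin] at this

/-- a leaf -/
abbrev leafB : Br := .nil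

/-- a vertex with one leaf -/
abbrev twoB : Br := .cons .nil .nil

/-- the reduction used: at most one leaf and at most one `twoB` at every vertex -/
def Cn2 (p : Br) : Prop := p = leafB ∨ p = twoB

lemma good_leafB : GoodBr leafB := by
  refine ⟨.nil, rfl, fun W _ _ K _ => ?_⟩
  exact le_of_eq (av_one (W := W))

lemma av_dl {W : Type} [Fintype W] [Nonempty W] {K : W → W → ℝ} (hK : Krn K) :
    av (dl K) = 0 := (TLT.p_BAS W K hK).2.2.1

lemma good_twoB : GoodBr twoB := by
  refine ⟨.cons true .nil .nil, rfl, fun W _ _ K hK => ?_⟩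
  have e : (OBr.cons true .nil .nil).val K = fun x => 1 + dl K x := by
    funext x
    rw [val_cons, val_nil, mul_one]
    unfold ms
    rw [sg_true, one_mul]
    have e1 : (OBr.nil.val K) = fun _ : W => (1 : ℝ) := rfl
    rw [e1, av_one]
    rfl
  rw [e, TLT.BAS_.av_add, av_one, av_dl hK, add_zero]

/-- the final reduction -/
theorem reduce2 (H : ∀ b, Red Cn2 b → GoodBr b) :
    ∀ n : ℕ, ∀ T : SimpleGraph (Fin n), T.IsTree →
      ∃ D : Fin n → Fin n → Prop,
        (∀ u v, T.Adj u v → (D u v ∨ D v u)) ∧
        (∀ u v, D u v → (T.Adj u v ∧ ¬ D v u)) ∧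
        ∀ m : ℕ, ∀ G : Fin m → Fin m → Prop,
          (∀ a, ¬ G a a) →
          (∀ a b, a ≠ b → (G a b ↔ ¬ G b a)) →
          (({f : Fin n → Fin m | ∀ u v, D u v → G (f u) (f v)}.ncard : ℝ) / (m : ℝ) ^ n
            ≤ ((1 : ℝ) / 2) ^ (T.edgeSet.ncard)) :=
  reduce (Cn := Cn2) (fun p hp => by
    rcases hp with rfl | rfl
    · exact good_leafB
    · exact good_twoB) H

end

end Pool.Agent.TSR
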